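import Mathlib

/-!
# Outer billiards: the basic functions

`h` is the support function of the table, `k` its derivative, `r` the radius of curvature, as
functions of the normal angle.  For normal angles `x < y < x + π`, `Dm x y` is the distance of the
point of tangency `x` from the tangent line `y`, and `Em x y` the distance of the point of tangency
`y` from the tangent line `x`.
-/

namespace Pool.Agent.J4H53.OB

open Real Set MeasureTheory Filter Topology

/-- support function `h`, its derivative `k`, radius of curvature `r = h + h''`. -/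
structure Sup (h k r : ℝ → ℝ) : Prop where
  dh : ∀ x, HasDerivAt h (k x) x
  dk : ∀ x, HasDerivAt k (r x - h x) x
  cr : Continuous r
  pos : ∀ x, 0 < r x
  ph : ∀ x, h (x + 2 * π) = h x
  pk : ∀ x, k (x + 2 * π) = k x
  pr : ∀ x, r (x + 2 * π) = r x

noncomputable def Dm (h k : ℝ → ℝ) (x y : ℝ) : ℝ := h y - h x * cos (y - x) - k x * sin (y - x)

noncomputable def Em (h k : ℝ → ℝ) (x y : ℝ) : ℝ := h x - h y * cos (y - x) + k y * sin (y - x)

/-- `∂ Dm / ∂ y` -/
noncomputable def Dy (h k : ℝ → ℝ) (x y : ℝ) : ℝ := k y + h x * sin (y - x) - k x * cos (y - x)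

/-- `∂ Em / ∂ x` -/
noncomputable def Ex (h k : ℝ → ℝ) (x y : ℝ) : ℝ := k x - h y * sin (y - x) - k y * cos (y - x)

variable {h k r : ℝ → ℝ}

theorem Sup.ch (S : Sup h k r) : Continuous h :=
  continuous_iff_continuousAt.2 fun x => (S.dh x).continuousAt

theorem Sup.ck (S : Sup h k r) : Continuous k :=
  continuous_iff_continuousAt.2 fun x => (S.dk x).continuousAt

theorem s_Dy (h k : ℝ → ℝ) (x y : ℝ) :
    sin (y - x) * Dy h k x y = Em h k x y + cos (y - x) * Dm h k x y := by
  have h1 := sin_sq_add_cos_sq (y - x)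
  unfold Dy Em Dm
  linear_combination h x * h1

theorem s_Ex (h k : ℝ → ℝ) (x y : ℝ) :
    sin (y - x) * Ex h k x y = -(Dm h k x y + cos (y - x) * Em h k x y) := by
  have h1 := sin_sq_add_cos_sq (y - x)
  unfold Ex Em Dm
  linear_combination -h y * h1

theorem s_kx (h k : ℝ → ℝ) (x y : ℝ) :
    sin (y - x) * k x = h y - h x * cos (y - x) - Dm h k x y := by
  unfold Dm
  ring

theorem s_ky (h k : ℝ → ℝ) (x y : ℝ) :
    sin (y - x) * k y = Em h k x y - h x + h y * cos (y - x) := by
  unfold Em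
  ring

section deriv

variable {X Y : ℝ → ℝ} {X' Y' t : ℝ}

theorem der_sin (hX : HasDerivAt X X' t) (hY : HasDerivAt Y Y' t) :
    HasDerivAt (fun t => sin (Y t - X t)) (cos (Y t - X t) * (Y' - X')) t :=
  (hY.sub hX).sin

theorem der_cos (hX : HasDerivAt X X' t) (hY : HasDerivAt Y Y' t) :
    HasDerivAt (fun t => cos (Y t - X t)) (-sin (Y t - X t) * (Y' - X')) t :=
  (hY.sub hX).cos

theorem Sup.der_h (S : Sup h k r) (hX : HasDerivAt X X' t) :
    HasDerivAt (fun t => h (X t)) (k (X t) * X') t := (S.dh (X t)).comp t hX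

theorem Sup.der_k (S : Sup h k r) (hX : HasDerivAt X X' t) :
    HasDerivAt (fun t => k (X t)) ((r (X t) - h (X t)) * X') t := (S.dk (X t)).comp t hX

theorem Sup.der_D (S : Sup h k r) (hX : HasDerivAt X X' t) (hY : HasDerivAt Y Y' t) :
    HasDerivAt (fun t => Dm h k (X t) (Y t))
      (-(r (X t) * sin (Y t - X t)) * X' + Dy h k (X t) (Y t) * Y') t := by
  have e := (((S.der_h hY).sub ((S.der_h hX).mul (der_cos hX hY))).sub
    ((S.der_k hX).mul (der_sin hX hY)))
  refine e.congr_deriv ?_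
  unfold Dy
  ring

theorem Sup.der_E (S : Sup h k r) (hX : HasDerivAt X X' t) (hY : HasDerivAt Y Y' t) :
    HasDerivAt (fun t => Em h k (X t) (Y t))
      (Ex h k (X t) (Y t) * X' + r (Y t) * sin (Y t - X t) * Y') t := by
  have e := (((S.der_h hX).sub ((S.der_h hY).mul (der_cos hX hY))).add
    ((S.der_k hY).mul (der_sin hX hY)))
  refine e.congr_deriv ?_
  unfold Ex
  ring

/-- tangent length from the point of tangency `x` to the tangent line `y` -/
noncomputable def sp (h k : ℝ → ℝ) (x y : ℝ) : ℝ := Dm h k x y / sin (y - x)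

/-- tangent length from the point of tangency `y` to the tangent line `x` -/
noncomputable def sm (h k : ℝ → ℝ) (x y : ℝ) : ℝ := Em h k x y / sin (y - x)

theorem Sup.der_sp (S : Sup h k r) (hX : HasDerivAt X X' t) (hY : HasDerivAt Y Y' t)
    (hs : sin (Y t - X t) ≠ 0) :
    HasDerivAt (fun t => sp h k (X t) (Y t))
      ((-r (X t) + cos (Y t - X t) * Dm h k (X t) (Y t) / sin (Y t - X t) ^ 2) * X'
        + Em h k (X t) (Y t) / sin (Y t - X t) ^ 2 * Y') t := by
  have e := (S.der_D hX hY).div (der_sin hX hY) hs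
  refine e.congr_deriv ?_
  have h1 := s_Dy h k (X t) (Y t)
  field_simp
  linear_combination Y' * h1

theorem Sup.der_sm (S : Sup h k r) (hX : HasDerivAt X X' t) (hY : HasDerivAt Y Y' t)
    (hs : sin (Y t - X t) ≠ 0) :
    HasDerivAt (fun t => sm h k (X t) (Y t))
      (-(Dm h k (X t) (Y t) / sin (Y t - X t) ^ 2) * X'
        + (r (Y t) - cos (Y t - X t) * Em h k (X t) (Y t) / sin (Y t - X t) ^ 2) * Y') t := by
  have e := (S.der_E hX hY).div (der_sin hX hY) hs
  refine e.congr_deriv ?_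
  have h1 := s_Ex h k (X t) (Y t)
  field_simp
  linear_combination X' * h1

end deriv

/-! ### the fields -/

section fields

variable (h k r : ℝ → ℝ) (x y : ℝ)

/-- numerator of the first component -/
noncomputable def N1 : ℝ :=
  -(h x ^ 2 * Dm h k x y * Em h k x y) + 1 / 2 * (h x * h y * Em h k x y ^ 2)
    + 1 / 2 * (cos (y - x) * h y ^ 2 * Em h k x y ^ 2) + 1 / 2 * (h y * Em h k x y ^ 3)

/-- numerator of the second component -/
noncomputable def N2 : ℝ :=
  h y ^ 2 * Dm h k x y * Em h k x y - 1 / 2 * (h x * h y * Dm h k x y ^ 2)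
    - 1 / 2 * (cos (y - x) * h x ^ 2 * Dm h k x y ^ 2) - 1 / 2 * (h x * Dm h k x y ^ 3)

noncomputable def N1x : ℝ :=
  -(2 * h x * k x * Dm h k x y * Em h k x y) + h x ^ 2 * (r x * sin (y - x)) * Em h k x y
    - h x ^ 2 * Dm h k x y * Ex h k x y
    + 1 / 2 * (k x * h y * Em h k x y ^ 2) + h x * h y * Em h k x y * Ex h k x y
    + 1 / 2 * (sin (y - x) * h y ^ 2 * Em h k x y ^ 2)
    + cos (y - x) * h y ^ 2 * Em h k x y * Ex h k x y
    + 3 / 2 * (h y * Em h k x y ^ 2 * Ex h k x y)

noncomputable def N1y : ℝ :=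
  -(h x ^ 2 * Dy h k x y * Em h k x y) - h x ^ 2 * Dm h k x y * (r y * sin (y - x))
    + 1 / 2 * (h x * k y * Em h k x y ^ 2) + h x * h y * Em h k x y * (r y * sin (y - x))
    - 1 / 2 * (sin (y - x) * h y ^ 2 * Em h k x y ^ 2) + cos (y - x) * h y * k y * Em h k x y ^ 2
    + cos (y - x) * h y ^ 2 * Em h k x y * (r y * sin (y - x))
    + 1 / 2 * (k y * Em h k x y ^ 3) + 3 / 2 * (h y * Em h k x y ^ 2 * (r y * sin (y - x)))

noncomputable def N2y : ℝ :=
  2 * h y * k y * Dm h k x y * Em h k x y + h y ^ 2 * Dy h k x y * Em h k x y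
    + h y ^ 2 * Dm h k x y * (r y * sin (y - x))
    - 1 / 2 * (h x * k y * Dm h k x y ^ 2) - h x * h y * Dm h k x y * Dy h k x y
    + 1 / 2 * (sin (y - x) * h x ^ 2 * Dm h k x y ^ 2)
    - cos (y - x) * h x ^ 2 * Dm h k x y * Dy h k x y
    - 3 / 2 * (h x * Dm h k x y ^ 2 * Dy h k x y)

noncomputable def A1 : ℝ := N1 h k x y / sin (y - x) ^ 3
noncomputable def A2 : ℝ := N2 h k x y / sin (y - x) ^ 3
noncomputable def A1x : ℝ := N1x h k r x y / sin (y - x) ^ 3
  + 3 * cos (y - x) * N1 h k x y / sin (y - x) ^ 4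
noncomputable def A1y : ℝ := N1y h k r x y / sin (y - x) ^ 3
  - 3 * cos (y - x) * N1 h k x y / sin (y - x) ^ 4
noncomputable def A2y : ℝ := N2y h k r x y / sin (y - x) ^ 3
  - 3 * cos (y - x) * N2 h k x y / sin (y - x) ^ 4

/-- the defect `p D - q E` -/
noncomputable def Mm : ℝ := h x * Dm h k x y - h y * Em h k x y

/-- The divergence identity. -/
theorem div_identity (hs : sin (y - x) ≠ 0) :
    A1x h k r x y + A2y h k r x y =
      ((r x * h x ^ 2 * Em h k x y + r y * h y ^ 2 * Dm h k x y) / sin (y - x) ^ 2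
        - Dm h k x y * Em h k x y * (cos (y - x) * (h x ^ 2 + h y ^ 2) + 2 * (h x * h y))
          / sin (y - x) ^ 4)
      + 2 * Mm h k x y ^ 2 / sin (y - x) ^ 4 := by
  have e1 := s_kx h k x y
  have e2 := s_ky h k x y
  have e3 := s_Dy h k x y
  have e4 := s_Ex h k x y
  have e5 := sin_sq_add_cos_sq (y - x)
  unfold A1x A2y N1x N2y N1 N2 Mm
  generalize Dm h k x y = D at *
  generalize Em h k x y = E at *
  generalize Dy h k x y = D' at *
  generalize Ex h k x y = E' at *
  generalize cos (y - x) = c at *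
  generalize sin (y - x) = s at *
  generalize h x = p at *
  generalize h y = q at *
  generalize k x = p' at *
  generalize k y = q' at *
  field_simp
  linear_combination (-4 * p * D * E + q * E ^ 2) * e1 + (4 * q * D * E - p * D ^ 2) * e2
    + (2 * q ^ 2 * E - 2 * p * q * D - 2 * c * p ^ 2 * D - 3 * p * D ^ 2) * e3
    + (-2 * p ^ 2 * D + 2 * p * q * E + 2 * c * q ^ 2 * E + 3 * q * E ^ 2) * e4
    + (q ^ 2 * E ^ 2 + p ^ 2 * D ^ 2) * e5

end fields

end Pool.Agent.J4H53.OB
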