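import Pool.Agent.J4H53.OB.Quad
import Pool.Agent.R279.PC.EL

/-!
# The equality case: the square of the support function is a quadratic form of the normal
-/

namespace Pool.Agent.J4H53.OB

open Real Set MeasureTheory Filter Topology

variable {h k r : ℝ → ℝ} {Φ P Q R : ℝ → ℝ → ℝ}

/-- The equality case of the Hopf argument. -/
structure Eqc (h k r : ℝ → ℝ) (Φ P Q R : ℝ → ℝ → ℝ) : Prop where
  fam : Fam h k r Φ P Q R
  zero : ∀ x, Φ 0 x = x
  gap : ∃ m : ℝ, 0 < m ∧ ∀ x, x + m ≤ Φ 1 x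
  hpos : ∀ x, 0 < h x
  eq : ∀ c ∈ Ioo (0 : ℝ) 1, ∀ x, Mm h k x (Φ c x) = 0 ∧
      h x * Em h k x (Φ c x) * P c x = h (Φ c x) * Dm h k x (Φ c x)

theorem Eqc.Mm_zero (F : Eqc h k r Φ P Q R) {x y : ℝ} (hxy : x < y) (hy : y < Φ 1 x) :
    Mm h k x y = 0 := by
  have hcont : ContinuousOn (fun c => Φ c x) (Icc 0 1) :=
    fun c _ => (F.fam.dc c x).continuousAt.continuousWithinAt
  have hmem : y ∈ Ioo (Φ 0 x) (Φ 1 x) := by
    rw [F.zero]
    exact ⟨hxy, hy⟩
  obtain ⟨c, hc, hcu⟩ := intermediate_value_Ioo zero_le_one hcont hmem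
  have h1 := (F.eq c hc x).1
  have h2 : Φ c x = y := hcu
  rwa [h2] at h1

/-- half of the second derivative of `h²` -/
noncomputable def w2 (h k r : ℝ → ℝ) (x : ℝ) : ℝ := k x ^ 2 + h x * (r x - h x)

theorem Sup.der_sq (S : Sup h k r) (x : ℝ) : HasDerivAt (fun x => h x ^ 2) (2 * h x * k x) x :=
  ((S.dh x).pow 2).congr_deriv (by simp)

theorem Sup.der_hk (S : Sup h k r) (x : ℝ) : HasDerivAt (fun x => h x * k x) (w2 h k r x) x :=
  ((S.dh x).mul (S.dk x)).congr_deriv (by unfold w2; ring)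

theorem Mm_eq (h k : ℝ → ℝ) (x y : ℝ) : Mm h k x y
    = (h y ^ 2 - h x ^ 2) * cos (y - x) - (h y * k y + h x * k x) * sin (y - x) := by
  unfold Mm Dm Em
  ring

theorem Eqc.G_zero (F : Eqc h k r Φ P Q R) {x y : ℝ} (hxy : x < y) (hy : y < Φ 1 x)
    (hpi : y < x + π) :
    h y ^ 2 = h x ^ 2 + 2 * (h x * k x) * (sin (y - x) * cos (y - x))
      + w2 h k r x * sin (y - x) ^ 2 := by
  have S := F.fam.sup
  have hs := (sin_pos_of hxy hpi).ne'
  have d1 : HasDerivAt (fun t => Mm h k t y) ((0 - 2 * h x * k x) * cos (y - x)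
      + (h y ^ 2 - h x ^ 2) * (-sin (y - x) * (0 - 1))
      - ((0 + w2 h k r x) * sin (y - x)
        + (h y * k y + h x * k x) * (cos (y - x) * (0 - 1)))) x := by
    have e : (fun t => Mm h k t y) = fun t =>
        (h y ^ 2 - h t ^ 2) * cos (y - t) - (h y * k y + h t * k t) * sin (y - t) :=
      funext fun t => Mm_eq h k t y
    rw [e]
    exact (((hasDerivAt_const x (h y ^ 2)).sub (S.der_sq x)).mul
      (der_cos (hasDerivAt_id x) (hasDerivAt_const x y))).sub
      (((hasDerivAt_const x (h y * k y)).add (S.der_hk x)).mul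
      (der_sin (hasDerivAt_id x) (hasDerivAt_const x y)))
  have d2 : (fun t => Mm h k t y) =ᶠ[𝓝 x] fun _ => 0 := by
    have c1 : Continuous (Φ 1) :=
      continuous_iff_continuousAt.2 fun x => (F.fam.dx 1 x).continuousAt
    filter_upwards [eventually_lt_nhds hxy,
      (continuous_const.tendsto x).eventually_lt (c1.tendsto x) hy] with t h1 h2
    exact F.Mm_zero h1 h2
  have h3 := (d1.congr_of_eventuallyEq d2.symm).unique (hasDerivAt_const x (0 : ℝ))
  have h4 := F.Mm_zero hxy hy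
  rw [Mm_eq] at h4
  have h5 := sin_sq_add_cos_sq (y - x)
  linear_combination sin (y - x) * h3 + cos (y - x) * h4 - (h y ^ 2 - h x ^ 2) * h5

theorem Eqc.kap (F : Eqc h k r Φ P Q R) {x y : ℝ} (hxy : x < y) (hy : y < Φ 1 x)
    (hpi : y < x + π) :
    2 * w2 h k r y + 4 * h y ^ 2 = 2 * w2 h k r x + 4 * h x ^ 2 := by
  have S := F.fam.sup
  have hmem : Ioo x (min (Φ 1 x) (x + π)) ∈ 𝓝 y := Ioo_mem_nhds hxy (lt_min hy hpi)
  -- first derivative
  have e1 : ∀ t ∈ Ioo x (min (Φ 1 x) (x + π)),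
      2 * h t * k t = 2 * (h x * k x) * (cos (t - x) ^ 2 - sin (t - x) ^ 2)
        + w2 h k r x * (2 * sin (t - x) * cos (t - x)) := by
    intro t ht
    have hm : Ioo x (min (Φ 1 x) (x + π)) ∈ 𝓝 t := Ioo_mem_nhds ht.1 ht.2
    have a1 : HasDerivAt (fun t => h x ^ 2 + 2 * (h x * k x) * (sin (t - x) * cos (t - x))
        + w2 h k r x * sin (t - x) ^ 2) (2 * (h x * k x) * (cos (t - x) ^ 2 - sin (t - x) ^ 2)
        + w2 h k r x * (2 * sin (t - x) * cos (t - x))) t := by
      have b1 := der_sin (hasDerivAt_const t x) (hasDerivAt_id t)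
      have b2 := der_cos (hasDerivAt_const t x) (hasDerivAt_id t)
      refine ((((b1.mul b2).const_mul (2 * (h x * k x))).const_add (h x ^ 2)).add
        ((b1.pow 2).const_mul (w2 h k r x))).congr_deriv ?_
      simp only [id, Nat.cast_ofNat, Nat.add_one_sub_one, pow_one]
      ring
    have a2 : (fun t => h t ^ 2) =ᶠ[𝓝 t] fun t => h x ^ 2
        + 2 * (h x * k x) * (sin (t - x) * cos (t - x)) + w2 h k r x * sin (t - x) ^ 2 := by
      filter_upwards [hm] with u hu
      exact F.G_zero hu.1 (hu.2.trans_le (min_le_left _ _)) (hu.2.trans_le (min_le_right _ _))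
    exact (S.der_sq t).unique (a1.congr_of_eventuallyEq a2)
  have a1 : HasDerivAt (fun t => 2 * (h x * k x) * (cos (t - x) ^ 2 - sin (t - x) ^ 2)
        + w2 h k r x * (2 * sin (t - x) * cos (t - x)))
      (2 * (h x * k x) * (-(4 * (sin (y - x) * cos (y - x))))
        + w2 h k r x * (2 * (cos (y - x) ^ 2 - sin (y - x) ^ 2))) y := by
    have b1 := der_sin (hasDerivAt_const y x) (hasDerivAt_id y)
    have b2 := der_cos (hasDerivAt_const y x) (hasDerivAt_id y)
    refine ((((b2.pow 2).sub (b1.pow 2)).const_mul (2 * (h x * k x))).add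
      (((b1.const_mul 2).mul b2).const_mul (w2 h k r x))).congr_deriv ?_
    simp only [id, Nat.cast_ofNat, Nat.add_one_sub_one, pow_one]
    ring
  have a2 : (fun t => 2 * (h t * k t)) =ᶠ[𝓝 y] fun t =>
      2 * (h x * k x) * (cos (t - x) ^ 2 - sin (t - x) ^ 2)
        + w2 h k r x * (2 * sin (t - x) * cos (t - x)) := by
    filter_upwards [hmem] with u hu
    rw [← e1 u hu]
    ring
  have a3 := ((S.der_hk y).const_mul 2).unique (a1.congr_of_eventuallyEq a2)
  have a4 := F.G_zero hxy hy hpi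
  have h5 := sin_sq_add_cos_sq (y - x)
  linear_combination a3 + 4 * a4 + 2 * w2 h k r x * h5

theorem Eqc.kap_const (F : Eqc h k r Φ P Q R) (x : ℝ) :
    2 * w2 h k r x + 4 * h x ^ 2 = 2 * w2 h k r 0 + 4 * h 0 ^ 2 := by
  obtain ⟨m, hm, hg⟩ := F.gap
  have hd : ∀ x, HasDerivAt (fun x => 2 * w2 h k r x + 4 * h x ^ 2) 0 x := by
    intro x
    have e : (fun x => 2 * w2 h k r x + 4 * h x ^ 2) =ᶠ[𝓝 x]
        fun _ => 2 * w2 h k r x + 4 * h x ^ 2 := by
      have hmp : 0 < min m π := lt_min hm pi_pos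
      filter_upwards [Ioo_mem_nhds (show x - min m π < x by linarith)
        (show x < x + min m π by linarith)] with y hy
      have e1 := min_le_left m π
      have e2 := min_le_right m π
      rcases lt_trichotomy x y with h1 | h1 | h1
      · exact F.kap h1 (by linarith [hg x, hy.2]) (by linarith [hy.2])
      · rw [h1]
      · exact (F.kap h1 (by linarith [hg y, hy.1]) (by linarith [hy.1])).symm
    exact (hasDerivAt_const x _).congr_of_eventuallyEq e
  exact is_const_of_deriv_eq_zero (fun x => (hd x).differentiableAt) (fun x => (hd x).deriv) x 0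

/-- The square of the support function is a quadratic form, and half of its derivative. -/
theorem Eqc.form (F : Eqc h k r Φ P Q R) : ∃ A B C : ℝ, ∀ x,
    h x ^ 2 = A * cos x ^ 2 + 2 * B * (cos x * sin x) + C * sin x ^ 2 ∧
    h x * k x = (C - A) * (cos x * sin x) + B * (cos x ^ 2 - sin x ^ 2) := by
  have S := F.fam.sup
  set κ := 2 * w2 h k r 0 + 4 * h 0 ^ 2 with hκ
  have u1 : ∀ x, HasDerivAt (fun x => h x ^ 2 - κ / 4) (2 * (h x * k x)) x := fun x =>
    ((S.der_sq x).sub_const (κ / 4)).congr_deriv (by ring)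
  have u2 : ∀ x, HasDerivAt (fun x => 2 * (h x * k x)) (-(2 ^ 2 * (h x ^ 2 - κ / 4))) x := by
    intro x
    refine ((S.der_hk x).const_mul 2).congr_deriv ?_
    have := F.kap_const x
    rw [← hκ] at this
    linarith
  have u3 := Pool.Agent.R279.PC.harmonic two_ne_zero u1 u2
  set a := h 0 ^ 2 - κ / 4 with ha
  set b := 2 * (h 0 * k 0) / 2 with hb
  have hw : ∀ x, h x ^ 2 = (κ / 4 + a) * cos x ^ 2 + 2 * b * (cos x * sin x)
      + (κ / 4 - a) * sin x ^ 2 := by
    intro x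
    have e1 := u3 x
    have e2 := sin_sq_add_cos_sq x
    rw [cos_two_mul', sin_two_mul] at e1
    linear_combination e1 - κ / 4 * e2
  refine ⟨κ / 4 + a, b, κ / 4 - a, fun x => ⟨hw x, ?_⟩⟩
  have d1 := S.der_sq x
  have d2 : HasDerivAt (fun x => (κ / 4 + a) * cos x ^ 2 + 2 * b * (cos x * sin x)
      + (κ / 4 - a) * sin x ^ 2) ((κ / 4 + a) * (2 * cos x * -sin x)
      + 2 * b * (-sin x * sin x + cos x * cos x) + (κ / 4 - a) * (2 * sin x * cos x)) x := by
    have b1 := hasDerivAt_sin x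
    have b2 := hasDerivAt_cos x
    refine ((((b2.pow 2).const_mul (κ / 4 + a)).add ((b2.mul b1).const_mul (2 * b))).add
      ((b1.pow 2).const_mul (κ / 4 - a))).congr_deriv ?_
    simp only [Nat.cast_ofNat, Nat.add_one_sub_one, pow_one]
  rw [← funext hw] at d2
  have d3 := d1.unique d2
  linear_combination d3 / 2

/-- the invariant `h · sp` of a leaf -/
theorem Eqc.leaf_const (F : Eqc h k r Φ P Q R) {c : ℝ} (hc : c ∈ Ioo (0 : ℝ) 1) (x : ℝ) :
    h x * sp h k x (Φ c x) = h 0 * sp h k 0 (Φ c 0) := by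
  have S := F.fam.sup
  have hc' : c ∈ Ioc (0 : ℝ) 1 := ⟨hc.1, hc.2.le⟩
  have L := F.fam.leaf c hc'
  have hlt : ∀ x, Φ c x < Φ 1 x := by
    intro x
    have h1 : StrictMonoOn (fun c => Φ c x) (Icc c 1) := by
      refine strictMonoOn_of_deriv_pos (convex_Icc c 1)
        (fun c _ => (F.fam.dc c x).continuousAt.continuousWithinAt) ?_
      intro t ht
      rw [interior_Icc] at ht
      rw [(F.fam.dc t x).deriv]
      exact F.fam.Qpos t ⟨hc.1.trans ht.1, ht.2.le⟩ x
    exact h1 (left_mem_Icc.2 hc.2.le) (right_mem_Icc.2 hc.2.le) hc.2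
  have hd : ∀ x, HasDerivAt (fun x => h x * sp h k x (Φ c x)) 0 x := by
    intro x
    have hs := (L.sin_pos x).ne'
    have d := (S.dh x).mul (S.der_sp (hasDerivAt_id x) (F.fam.dx c x) hs)
    refine d.congr_deriv ?_
    obtain ⟨e1, e2⟩ := F.eq c hc x
    have e3 := F.G_zero (L.lo x) (hlt x) (L.hi x)
    have e4 := sin_sq_add_cos_sq (Φ c x - x)
    have e5 : Dm h k x (Φ c x)
      = h (Φ c x) - h x * cos (Φ c x - x) - k x * sin (Φ c x - x) := rfl
    simp only [id, mul_one]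
    unfold sp
    unfold w2 at e3
    have key : k x * Dm h k x (Φ c x) * sin (Φ c x - x) + (-(h x * r x * sin (Φ c x - x) ^ 2)
        + h x * cos (Φ c x - x) * Dm h k x (Φ c x) + h x * Em h k x (Φ c x) * P c x) = 0 := by
      rw [e2, e5]
      linear_combination e3 - h x ^ 2 * e4
    field_simp
    linear_combination key
  exact is_const_of_deriv_eq_zero (fun x => (hd x).differentiableAt) (fun x => (hd x).deriv) x 0

theorem Eqc.leaf_const' (F : Eqc h k r Φ P Q R) {c : ℝ} (hc : c ∈ Ioc (0 : ℝ) 1) (x : ℝ) :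
    h x * sp h k x (Φ c x) = h 0 * sp h k 0 (Φ c 0) := by
  rcases lt_or_eq_of_le hc.2 with h1 | h1
  · exact F.leaf_const ⟨hc.1, h1⟩ x
  · subst h1
    have S := F.fam.sup
    have hl : ∀ x, ContinuousAt (fun c => h x * sp h k x (Φ c x)) 1 := fun x =>
      continuousAt_const.mul (S.der_sp (hasDerivAt_const 1 x) (F.fam.dc 1 x)
        ((F.fam.leaf 1 hc).sin_pos x).ne').continuousAt
    have e1 : Tendsto (fun c => h x * sp h k x (Φ c x)) (𝓝[<] 1) (𝓝 (h x * sp h k x (Φ 1 x))) :=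
      (hl x).tendsto.mono_left nhdsWithin_le_nhds
    have e2 : Tendsto (fun c => h 0 * sp h k 0 (Φ c 0)) (𝓝[<] 1) (𝓝 (h 0 * sp h k 0 (Φ 1 0))) :=
      (hl 0).tendsto.mono_left nhdsWithin_le_nhds
    refine tendsto_nhds_unique (e1.congr' ?_) e2
    filter_upwards [Ioo_mem_nhdsLT (zero_lt_one (α := ℝ))] with t ht
    exact F.leaf_const ht x

end Pool.Agent.J4H53.OB
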