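import Pool.Agent.J4H53.OB.Build

/-!
# Tangent lines and the support function
-/

namespace Pool.Agent.J4H53.OB

open Real Set MeasureTheory Filter Topology

variable {Φ : ℝ → ℝ → ℝ} {γ : ℝ → ℂ}

/-- support function with respect to the origin `o` -/
noncomputable def hh (γ : ℝ → ℂ) (o : ℂ) (x : ℝ) : ℝ :=
  (γ x - o).re * cos x + (γ x - o).im * sin x

/-- its derivative -/
noncomputable def kk (γ : ℝ → ℂ) (o : ℂ) (x : ℝ) : ℝ :=
  (γ x - o).im * cos x - (γ x - o).re * sin x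

theorem exp_re (x : ℝ) : (Complex.exp (x * Complex.I)).re = cos x := Complex.exp_ofReal_mul_I_re x

theorem exp_im (x : ℝ) : (Complex.exp (x * Complex.I)).im = sin x := Complex.exp_ofReal_mul_I_im x

theorem tan_re (ρ x : ℝ) : ((ρ : ℂ) * (Complex.I * Complex.exp (x * Complex.I))).re
    = -(ρ * sin x) := by
  simp only [Complex.mul_re, Complex.mul_im, Complex.ofReal_re, Complex.ofReal_im, Complex.I_re,
    Complex.I_im, exp_re, exp_im]
  ring

theorem tan_im (ρ x : ℝ) : ((ρ : ℂ) * (Complex.I * Complex.exp (x * Complex.I))).im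
    = ρ * cos x := by
  simp only [Complex.mul_re, Complex.mul_im, Complex.ofReal_re, Complex.ofReal_im, Complex.I_re,
    Complex.I_im, exp_re, exp_im]
  ring

theorem der_re {f : ℝ → ℂ} {f' : ℂ} {x : ℝ} (h : HasDerivAt f f' x) :
    HasDerivAt (fun x => (f x).re) f'.re x :=
  (Complex.reCLM.hasFDerivAt (x := f x)).comp_hasDerivAt x h

theorem der_im {f : ℝ → ℂ} {f' : ℂ} {x : ℝ} (h : HasDerivAt f f' x) :
    HasDerivAt (fun x => (f x).im) f'.im x :=
  (Complex.imCLM.hasFDerivAt (x := f x)).comp_hasDerivAt x h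

theorem sup_of (o : ℂ) (hper : ∀ θ, γ (θ + 2 * π) = γ θ) {ρ : ℝ → ℝ} (hc : Continuous ρ)
    (hρ : ∀ θ : ℝ, 0 < ρ θ ∧
      HasDerivAt γ (ρ θ * (Complex.I * Complex.exp (θ * Complex.I))) θ) :
    Sup (hh γ o) (kk γ o) ρ where
  dh x := by
    have e1 := der_re ((hρ x).2.sub_const o)
    have e2 := der_im ((hρ x).2.sub_const o)
    refine ((e1.mul (hasDerivAt_cos x)).add (e2.mul (hasDerivAt_sin x))).congr_deriv ?_
    rw [tan_re, tan_im]
    unfold kk
    ring
  dk x := by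
    have e1 := der_re ((hρ x).2.sub_const o)
    have e2 := der_im ((hρ x).2.sub_const o)
    refine ((e2.mul (hasDerivAt_cos x)).sub (e1.mul (hasDerivAt_sin x))).congr_deriv ?_
    rw [tan_re, tan_im]
    unfold hh
    have := sin_sq_add_cos_sq x
    linear_combination ρ x * this
  cr := hc
  pos x := (hρ x).1
  ph x := by
    unfold hh
    rw [hper, cos_add_two_pi, sin_add_two_pi]
  pk x := by
    unfold kk
    rw [hper, cos_add_two_pi, sin_add_two_pi]
  pr x := by
    have e1 : HasDerivAt (fun x => γ (x + 2 * π))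
        (ρ (x + 2 * π) * (Complex.I * Complex.exp ((x + 2 * π : ℝ) * Complex.I))) x :=
      (hρ (x + 2 * π)).2.comp_add_const x (2 * π)
    have e2 : (fun x => γ (x + 2 * π)) = γ := funext hper
    rw [e2] at e1
    have e3 := e1.unique (hρ x).2
    have e4 := congrArg Complex.re e3
    have e5 := congrArg Complex.im e3
    rw [tan_re, tan_re, sin_add_two_pi] at e4
    rw [tan_im, tan_im, cos_add_two_pi] at e5
    have := sin_sq_add_cos_sq x
    linear_combination cos x * e5 - sin x * e4 + (ρ x - ρ (x + 2 * π)) * this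

theorem onTangent_iff (γ : ℝ → ℂ) (o : ℂ) (x : ℝ) (z : ℂ) :
    OnTangent γ x z ↔ (z - o).re * cos x + (z - o).im * sin x = hh γ o x := by
  unfold OnTangent hh
  have e : Complex.exp (-((x : ℂ) * Complex.I)) = ⟨cos x, -sin x⟩ := by
    have : -((x : ℂ) * Complex.I) = ((-x : ℝ) : ℂ) * Complex.I := by push_cast; ring
    rw [this]
    apply Complex.ext
    · rw [exp_re, cos_neg]
    · rw [exp_im, sin_neg]
  rw [e]
  simp only [Complex.mul_re, Complex.sub_re, Complex.sub_im]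
  constructor <;> intro h <;> linarith

/-- the point of the tangent line `x` at the signed distance `τ` from the point of tangency -/
noncomputable def pt (γ : ℝ → ℂ) (x τ : ℝ) : ℂ :=
  γ x + τ * (Complex.I * Complex.exp (x * Complex.I))

theorem pt_re (γ : ℝ → ℂ) (o : ℂ) (x τ : ℝ) :
    (pt γ x τ - o).re = hh γ o x * cos x - (kk γ o x + τ) * sin x := by
  have e : pt γ x τ - o = (γ x - o) + τ * (Complex.I * Complex.exp (x * Complex.I)) := by
    unfold pt
    ring
  rw [e, Complex.add_re, tan_re]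
  unfold hh kk
  have := sin_sq_add_cos_sq x
  linear_combination -(γ x - o).re * this

theorem pt_im (γ : ℝ → ℂ) (o : ℂ) (x τ : ℝ) :
    (pt γ x τ - o).im = hh γ o x * sin x + (kk γ o x + τ) * cos x := by
  have e : pt γ x τ - o = (γ x - o) + τ * (Complex.I * Complex.exp (x * Complex.I)) := by
    unfold pt
    ring
  rw [e, Complex.add_im, tan_im]
  unfold hh kk
  have := sin_sq_add_cos_sq x
  linear_combination -(γ x - o).im * this

theorem onTangent_pt (o : ℂ) (x y τ : ℝ) :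
    OnTangent γ y (pt γ x τ) ↔ τ * sin (y - x) = Dm (hh γ o) (kk γ o) x y := by
  rw [onTangent_iff γ o, pt_re, pt_im]
  unfold Dm
  rw [cos_sub, sin_sub]
  constructor <;> intro h <;> linarith

theorem exists_pt (x : ℝ) {z : ℂ} (hz : OnTangent γ x z) : ∃ τ, z = pt γ x τ := by
  rw [onTangent_iff γ 0] at hz
  refine ⟨(z - 0).im * cos x - (z - 0).re * sin x - kk γ 0 x, ?_⟩
  rw [← sub_left_inj (a := (0 : ℂ))]
  have := sin_sq_add_cos_sq x
  apply Complex.ext
  · rw [pt_re, ← hz]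
    linear_combination -(z - 0).re * this
  · rw [pt_im, ← hz]
    linear_combination -(z - 0).im * this

theorem reflect_pt (x τ : ℝ) : 2 * γ x - pt γ x τ = pt γ x (-τ) := by
  unfold pt
  push_cast
  ring

section fol

variable (F : OuterFoliation γ Φ) {ρ : ℝ → ℝ} (o : ℂ)

theorem Em_eq (h k : ℝ → ℝ) (x y : ℝ) : Dm h k y x = Em h k x y := by
  unfold Dm Em
  rw [show x - y = -(y - x) by ring, cos_neg, sin_neg]
  ring

include F

theorem leaf_el {c : ℝ} (hc : c ∈ Ioc (0 : ℝ) 1) (x : ℝ) :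
    sp (hh γ o) (kk γ o) (Φ c x) (Φ c (Φ c x)) = sm (hh γ o) (kk γ o) x (Φ c x) := by
  have hc' : c ∈ Icc (0 : ℝ) 1 := ⟨hc.1.le, hc.2⟩
  have s1 := (sin_pos_of (gt_self F hc x) (F.lt_pi c hc' x)).ne'
  have s2 := (sin_pos_of (gt_self F hc (Φ c x)) (F.lt_pi c hc' (Φ c x))).ne'
  have h1 : OnTangent γ x (pt γ (Φ c x) (-sm (hh γ o) (kk γ o) x (Φ c x))) := by
    rw [onTangent_pt o, Em_eq, show x - Φ c x = -(Φ c x - x) by ring, sin_neg]
    unfold sm
    field_simp
  have h2 : OnTangent γ (Φ c x) (pt γ (Φ c x) (-sm (hh γ o) (kk γ o) x (Φ c x))) := by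
    rw [onTangent_pt o]
    unfold Dm
    simp
  have h3 := F.refl c hc x _ h1 h2
  rw [reflect_pt, neg_neg, onTangent_pt o] at h3
  unfold sp
  rw [← h3]
  field_simp

theorem mkLeaf (S : Sup (hh γ o) (kk γ o) ρ) {c : ℝ} (hc : c ∈ Ioc (0 : ℝ) 1) :
    Leaf (hh γ o) (kk γ o) ρ (Φ c) (Pd Φ c) where
  der := d_x F.smooth c
  cont := (smP F.smooth).continuous.comp (Continuous.prodMk_right c)
  pos := P_pos F ⟨hc.1.le, hc.2⟩
  per := F.per c ⟨hc.1.le, hc.2⟩
  lo := gt_self F hc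
  hi := F.lt_pi c ⟨hc.1.le, hc.2⟩
  el := leaf_el F o hc

theorem mkFam (S : Sup (hh γ o) (kk γ o) ρ) :
    Fam (hh γ o) (kk γ o) ρ Φ (Pd Φ) (Qd Φ) (Rd Φ) where
  sup := S
  tot := tot_Φ F.smooth
  dPc := d_Pc F.smooth
  dQx := d_Qx F.smooth
  cP := (smP F.smooth).continuous
  cQ := (smQ F.smooth).continuous
  cR := smR F.smooth
  leaf c hc := mkLeaf F o S hc
  Qpos c hc := Q_pos F ⟨hc.1.le, hc.2⟩
  Qper c hc := Q_per F ⟨hc.1.le, hc.2⟩

end fol

end Pool.Agent.J4H53.OB
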