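import Mathlib

/-!
# Outer billiards with a foliation by invariant curves: definitions
-/

namespace Pool.Agent.J4H53.OB

open Real Set Complex

/-- `γ` is a closed strictly convex plane curve of class `C²` with positive radius of curvature
`ρ`, parametrised by the angle `θ` of its outer unit normal `exp (i θ)`. -/
structure IsOval (γ : ℝ → ℂ) : Prop where
  per : ∀ θ, γ (θ + 2 * π) = γ θ
  normal : ∃ ρ : ℝ → ℝ, Continuous ρ ∧
    ∀ θ, 0 < ρ θ ∧ HasDerivAt γ (ρ θ * (I * cexp (θ * I))) θ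

/-- `z` lies on the tangent line `ℓ_θ` of `γ` at `γ θ`. -/
def OnTangent (γ : ℝ → ℂ) (θ : ℝ) (z : ℂ) : Prop := ((z - γ θ) * cexp (-(θ * I))).re = 0

/-- The leaf `c`: the curve of the intersection points of the tangent lines `ℓ_θ` and
`ℓ_(Φ c θ)`. -/
def leafSet (γ : ℝ → ℂ) (Φ : ℝ → ℝ → ℝ) (c : ℝ) : Set ℂ :=
  {z | ∃ θ, OnTangent γ θ z ∧ OnTangent γ (Φ c θ) z}

/-- A foliation of the closed region between the oval `γ` and a closed curve around it by
invariant curves of the outer billiard of `γ`: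

* the leaves are `γ` (`c = 0`) and the curves `leafSet γ Φ c`, `0 < c ≤ 1`: the leaf `c` meets the
  tangent line `ℓ_θ` in its intersection point with `ℓ_(Φ c θ)` on one side of `γ θ`, and in its
  intersection point with `ℓ_w`, where `Φ c w = θ`, on the other side;
* for every `θ` the point reflection of `ℓ_θ` in `γ θ` exchanges these two points for every leaf
  (that is, the involution `σ_θ` is the isometry of `ℓ_θ` fixing `γ θ`);
* the outermost leaf `1` consists of the vertices of parallelograms circumscribed about `γ`; or the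
  curve `γ` is centrally symmetric and the orbits on the leaf `1` are 4-periodic. -/
structure OuterFoliation (γ : ℝ → ℂ) (Φ : ℝ → ℝ → ℝ) : Prop where
  oval : IsOval γ
  /-- the family is of class `C²` -/
  smooth : ContDiff ℝ 2 (fun p : ℝ × ℝ => Φ p.1 p.2)
  /-- the leaf `0` is `γ` -/
  zero : ∀ θ, Φ 0 θ = θ
  /-- the leaves are closed curves going once around `γ` -/
  per : ∀ c ∈ Icc (0 : ℝ) 1, ∀ θ, Φ c (θ + 2 * π) = Φ c θ + 2 * π
  /-- both tangency points of the tangents from a point of the leaf move in the same direction -/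
  deriv_angle : ∀ c ∈ Icc (0 : ℝ) 1, ∀ θ, 0 < deriv (Φ c) θ
  /-- the leaves form a foliation -/
  deriv_param : ∀ c ∈ Icc (0 : ℝ) 1, ∀ θ, 0 < deriv (fun c => Φ c θ) c
  /-- the leaves lie in the affine plane, outside `γ` -/
  lt_pi : ∀ c ∈ Icc (0 : ℝ) 1, ∀ θ, Φ c θ < θ + π
  /-- the point reflection of `ℓ_θ'`, `θ' = Φ c θ`, in `γ θ'` maps the point of the leaf on `ℓ_θ'`
  and `ℓ_θ` to the point of the leaf on `ℓ_θ'` and `ℓ_(Φ c θ')` -/
  refl : ∀ c ∈ Ioc (0 : ℝ) 1, ∀ θ z, OnTangent γ θ z → OnTangent γ (Φ c θ) z →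
    OnTangent γ (Φ c (Φ c θ)) (2 * γ (Φ c θ) - z)
  /-- the outermost leaf -/
  outer : (∀ θ, Φ 1 (Φ 1 θ) = θ + π) ∨
    ((∃ o : ℂ, ∀ θ, γ (θ + π) = 2 * o - γ θ) ∧
      ∀ θ, Φ 1 (Φ 1 (Φ 1 (Φ 1 θ))) = θ + 2 * π)

/-- the quadratic form with coefficients `a, 2 b, d` -/
def quad (a b d : ℝ) (z : ℂ) : ℝ := a * z.re ^ 2 + 2 * b * (z.re * z.im) + d * z.im ^ 2

end Pool.Agent.J4H53.OB
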