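import Pool.Agent.J4H53.OB.Leaf

/-!
# The family of leaves and the flux
-/

namespace Pool.Agent.J4H53.OB

open Real Set MeasureTheory Filter Topology

/-- A smooth family of leaves `Φ c`, `0 < c ≤ 1`, with its first derivatives `P = ∂ Φ / ∂ x`,
`Q = ∂ Φ / ∂ c` and the mixed derivative `R`. -/
structure Fam (h k r : ℝ → ℝ) (Φ P Q R : ℝ → ℝ → ℝ) : Prop where
  sup : Sup h k r
  tot : ∀ c x, HasFDerivAt (fun p : ℝ × ℝ => Φ p.1 p.2)
    (Q c x • ContinuousLinearMap.fst ℝ ℝ ℝ + P c x • ContinuousLinearMap.snd ℝ ℝ ℝ) (c, x)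
  dPc : ∀ c x, HasDerivAt (fun c => P c x) (R c x) c
  dQx : ∀ c x, HasDerivAt (Q c) (R c x) x
  cP : Continuous (fun p : ℝ × ℝ => P p.1 p.2)
  cQ : Continuous (fun p : ℝ × ℝ => Q p.1 p.2)
  cR : Continuous (fun p : ℝ × ℝ => R p.1 p.2)
  leaf : ∀ c ∈ Ioc (0 : ℝ) 1, Leaf h k r (Φ c) (P c)
  Qpos : ∀ c ∈ Ioc (0 : ℝ) 1, ∀ x, 0 < Q c x
  Qper : ∀ c ∈ Ioc (0 : ℝ) 1, ∀ x, Q c (x + 2 * π) = Q c x

variable {h k r : ℝ → ℝ} {Φ P Q R : ℝ → ℝ → ℝ}

theorem Fam.cΦ (F : Fam h k r Φ P Q R) : Continuous (fun p : ℝ × ℝ => Φ p.1 p.2) :=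
  continuous_iff_continuousAt.2 fun p => (F.tot p.1 p.2).continuousAt

theorem Fam.chain (F : Fam h k r Φ P Q R) {X Y : ℝ → ℝ} {X' Y' t : ℝ} (hX : HasDerivAt X X' t)
    (hY : HasDerivAt Y Y' t) :
    HasDerivAt (fun t => Φ (X t) (Y t)) (Q (X t) (Y t) * X' + P (X t) (Y t) * Y') t := by
  have h := HasFDerivAt.comp_hasDerivAt (l := fun p : ℝ × ℝ => Φ p.1 p.2)
    (f := fun t => (X t, Y t)) t (F.tot (X t) (Y t)) (hX.prodMk hY)
  have h2 : (fun p : ℝ × ℝ => Φ p.1 p.2) ∘ (fun t => (X t, Y t)) = fun t => Φ (X t) (Y t) := rfl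
  rw [h2] at h
  refine h.congr_deriv ?_
  simp

theorem Fam.dx (F : Fam h k r Φ P Q R) (c x : ℝ) : HasDerivAt (Φ c) (P c x) x := by
  simpa using F.chain (hasDerivAt_const x c) (hasDerivAt_id x)

theorem Fam.dc (F : Fam h k r Φ P Q R) (c x : ℝ) : HasDerivAt (fun c => Φ c x) (Q c x) c := by
  simpa using F.chain (hasDerivAt_id c) (hasDerivAt_const c x)

/-- The density. -/
noncomputable def rho (h k : ℝ → ℝ) (Φ Q : ℝ → ℝ → ℝ) (c x : ℝ) : ℝ :=
  Q c x * (Dm h k x (Φ c x) * Em h k x (Φ c x) / sin (Φ c x - x) ^ 3)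

theorem Fam.invariant (F : Fam h k r Φ P Q R) {c : ℝ} (hc : c ∈ Ioo (0 : ℝ) 1) (x : ℝ) :
    rho h k Φ Q c (Φ c x) * P c x = rho h k Φ Q c x := by
  have hc' : c ∈ Ioc (0 : ℝ) 1 := ⟨hc.1, hc.2.le⟩
  have L := F.leaf c hc'
  have hy := F.dc c x
  have hz := F.chain (hasDerivAt_id c) hy
  have h1 := F.sup.der_sp hy hz (L.sin_pos (Φ c x)).ne'
  have h2 := F.sup.der_sm (hasDerivAt_const c x) hy (L.sin_pos x).ne'
  have h3 : (fun c => sp h k (Φ c x) (Φ (id c) (Φ c x))) =ᶠ[𝓝 c] fun c => sm h k x (Φ c x) := by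
    filter_upwards [Ioo_mem_nhds hc.1 hc.2] with t ht
    exact (F.leaf t ⟨ht.1, ht.2.le⟩).el x
  have h4 := h1.unique (h2.congr_of_eventuallyEq h3)
  have h5 := (L.pos x).ne'
  have h6 := L.lin F.sup x
  have h7 := L.el x
  have s1 := (L.sin_pos x).ne'
  have s2 := (L.sin_pos (Φ c x)).ne'
  simp only [id, mul_one] at h4
  unfold sp sm at h7
  unfold rho
  generalize cos (Φ c x - x) = c1 at *
  generalize sin (Φ c x - x) = s at *
  generalize cos (Φ c (Φ c x) - Φ c x) = c' at *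
  generalize sin (Φ c (Φ c x) - Φ c x) = s' at *
  generalize Dm h k x (Φ c x) = D at *
  generalize Em h k x (Φ c x) = E at *
  generalize Dm h k (Φ c x) (Φ c (Φ c x)) = D' at *
  generalize Em h k (Φ c x) (Φ c (Φ c x)) = E' at *
  generalize P c x = p at *
  generalize P c (Φ c x) = p' at *
  generalize r (Φ c x) = ρ at *
  generalize Q c x = q at *
  generalize Q c (Φ c x) = q' at *
  have hD' : D' = E * s' / s := by
    field_simp at h7 ⊢
    linarith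
  have key : E' / s' ^ 2 * q' * p = D / s ^ 2 * q := by
    linear_combination p * h4 - q * h6
  subst hD'
  calc q' * (E * s' / s * E' / s' ^ 3) * p = (E' / s' ^ 2 * q' * p) * (E / s) := by
        field_simp
    _ = q * (D * E / s ^ 3) := by
        rw [key]
        field_simp

/-- The flux integrand. -/
noncomputable def flx (h k : ℝ → ℝ) (Φ P : ℝ → ℝ → ℝ) (c x : ℝ) : ℝ :=
  A2 h k x (Φ c x) - A1 h k x (Φ c x) * P c x

/-- Its `c`-derivative. -/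
noncomputable def flxC (h k r : ℝ → ℝ) (Φ P Q R : ℝ → ℝ → ℝ) (c x : ℝ) : ℝ :=
  A2y h k r x (Φ c x) * Q c x - (A1y h k r x (Φ c x) * Q c x * P c x + A1 h k x (Φ c x) * R c x)

theorem Fam.dflx (F : Fam h k r Φ P Q R) {c : ℝ} (hc : c ∈ Ioc (0 : ℝ) 1) (x : ℝ) :
    HasDerivAt (fun c => flx h k Φ P c x) (flxC h k r Φ P Q R c x) c := by
  have hs := ((F.leaf c hc).sin_pos x).ne'
  have hX := hasDerivAt_const c x
  have hY := F.dc c x
  have h := (F.sup.der_A2y x hY hs).sub ((F.sup.der_A1 hX hY hs).mul (F.dPc c x))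
  refine h.congr_deriv ?_
  unfold flxC
  ring

/-- The auxiliary function in the integration by parts. -/
noncomputable def aux (h k : ℝ → ℝ) (Φ Q : ℝ → ℝ → ℝ) (c x : ℝ) : ℝ :=
  A1 h k x (Φ c x) * Q c x

/-- The nonnegative integrand. -/
noncomputable def pst (h k : ℝ → ℝ) (Φ P Q : ℝ → ℝ → ℝ) (c x : ℝ) : ℝ :=
  Q c x * ((h x * Em h k x (Φ c x) * P c x - h (Φ c x) * Dm h k x (Φ c x)) ^ 2
      / (P c x * sin (Φ c x - x) ^ 4)
    + 2 * Mm h k x (Φ c x) ^ 2 / sin (Φ c x - x) ^ 4)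

theorem Fam.daux (F : Fam h k r Φ P Q R) {c : ℝ} (hc : c ∈ Ioc (0 : ℝ) 1) (x : ℝ) :
    HasDerivAt (aux h k Φ Q c) (pst h k Φ P Q c x + rho h k Φ Q c x * F1 h k r (Φ c) (P c) x
      - rho h k Φ Q c x * F1 h k r (Φ c) (P c) (Φ c x) - flxC h k r Φ P Q R c x) x := by
  have L := F.leaf c hc
  have hs := (L.sin_pos x).ne'
  have hX := hasDerivAt_id x
  have hY := F.dx c x
  have hh := (F.sup.der_A1 hX hY hs).mul (F.dQx c x)
  refine hh.congr_deriv ?_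
  have h1 := L.hopf F.sup x
  have h2 := div_identity h k r x (Φ c x) hs
  unfold pst flxC rho
  simp only [id]
  linear_combination Q c x * h2 + Q c x * h1

end Pool.Agent.J4H53.OB
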