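import Pool.Agent.J4H53.OB.Sym

/-!
# The rigidity theorem for outer billiards
-/

namespace Pool.Agent.J4H53.OB

open Real Set MeasureTheory Filter Topology

variable {Φ : ℝ → ℝ → ℝ} {γ : ℝ → ℂ} {ρ : ℝ → ℝ} {h k r : ℝ → ℝ}

theorem polar {m1 m2 : ℝ} (hm : m1 ≠ 0 ∨ m2 ≠ 0) :
    ∃ R θ : ℝ, 0 < R ∧ R * cos θ = m1 ∧ R * sin θ = m2 := by
  obtain ⟨z, hz⟩ : ∃ z : ℂ, z = ⟨m1, m2⟩ := ⟨_, rfl⟩
  have hz0 : z ≠ 0 := by
    intro h0
    rw [h0] at hz
    have e1 := congrArg Complex.re hz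
    have e2 := congrArg Complex.im hz
    simp only [Complex.zero_re, Complex.zero_im] at e1 e2
    rcases hm with h1 | h1
    · exact h1 e1.symm
    · exact h1 e2.symm
  refine ⟨‖z‖, z.arg, norm_pos_iff.2 hz0, ?_, ?_⟩
  · rw [Complex.norm_mul_cos_arg, hz]
  · rw [Complex.norm_mul_sin_arg, hz]

/-- the support function of an ellipse -/
structure Frm (h k : ℝ → ℝ) (A B C : ℝ) : Prop where
  pos : ∀ x, 0 < h x
  sq : ∀ x, h x ^ 2 = A * cos x ^ 2 + 2 * B * (cos x * sin x) + C * sin x ^ 2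
  hk : ∀ x, h x * k x = (C - A) * (cos x * sin x) + B * (cos x ^ 2 - sin x ^ 2)

variable {A B C : ℝ}

theorem Frm.A_pos (T : Frm h k A B C) : 0 < A := by
  have e := T.sq 0
  rw [cos_zero, sin_zero] at e
  have := T.pos 0
  nlinarith [pow_pos this 2]

theorem Frm.C_pos (T : Frm h k A B C) : 0 < C := by
  have e := T.sq (π / 2)
  rw [cos_pi_div_two, sin_pi_div_two] at e
  have := T.pos (π / 2)
  nlinarith [pow_pos this 2]

theorem Frm.det_pos (T : Frm h k A B C) : 0 < A * C - B ^ 2 := by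
  have hA := T.A_pos
  obtain ⟨R, θ, hR, h1, h2⟩ := polar (m1 := -B) (m2 := A) (Or.inr hA.ne')
  have h3 : 0 < h θ ^ 2 * R ^ 2 := by
    have := T.pos θ
    positivity
  have h4 : h θ ^ 2 * R ^ 2 = A * (A * C - B ^ 2) := by
    calc h θ ^ 2 * R ^ 2 = A * (R * cos θ) ^ 2 + 2 * B * ((R * cos θ) * (R * sin θ))
          + C * (R * sin θ) ^ 2 := by rw [T.sq θ]; ring
      _ = A * (A * C - B ^ 2) := by rw [h1, h2]; ring
  rw [h4] at h3
  exact (mul_pos_iff_of_pos_left hA).1 h3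

theorem quad_pt (o : ℂ) (T : Frm (hh γ o) (kk γ o) A B C) (x τ : ℝ) :
    quad (C / (A * C - B ^ 2)) (-B / (A * C - B ^ 2)) (A / (A * C - B ^ 2)) (pt γ x τ - o)
      = 1 + τ ^ 2 * hh γ o x ^ 2 / (A * C - B ^ 2) := by
  have hΔ := T.det_pos.ne'
  have e1 := T.sq x
  have e2 := T.hk x
  have e3 := sin_sq_add_cos_sq x
  unfold quad
  rw [pt_re, pt_im]
  generalize hh γ o x = p at *
  generalize kk γ o x = K at *
  generalize cos x = c at *
  generalize sin x = s at *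
  have key : p ^ 2 * (C * c ^ 2 - 2 * B * (c * s) + A * s ^ 2) - (p * K) ^ 2
      = A * C - B ^ 2 := by
    rw [e1, e2]
    linear_combination (A * C - B ^ 2) * (s ^ 2 + c ^ 2 + 1) * e3
  obtain ⟨Δ, hΔ'⟩ : ∃ Δ, Δ = A * C - B ^ 2 := ⟨_, rfl⟩
  rw [← hΔ'] at key hΔ ⊢
  field_simp
  linear_combination key + 2 * (K + τ) * p * e2 - (K + τ) ^ 2 * e1

theorem exists_tangent (o : ℂ) (T : Frm (hh γ o) (kk γ o) A B C) {z : ℂ} {g : ℝ}
    (hz : quad (C / (A * C - B ^ 2)) (-B / (A * C - B ^ 2)) (A / (A * C - B ^ 2)) (z - o)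
      = 1 + g ^ 2 / (A * C - B ^ 2)) : ∃ x, z = pt γ x (g / hh γ o x) := by
  have hΔ := T.det_pos
  obtain ⟨v1, hv1⟩ : ∃ v1, v1 = (z - o).re := ⟨_, rfl⟩
  obtain ⟨v2, hv2⟩ : ∃ v2, v2 = (z - o).im := ⟨_, rfl⟩
  unfold quad at hz
  rw [← hv1, ← hv2] at hz
  obtain ⟨Δ, hΔ'⟩ : ∃ Δ, Δ = A * C - B ^ 2 := ⟨_, rfl⟩
  rw [← hΔ'] at hz hΔ
  have hT : 0 < Δ + g ^ 2 := by positivity
  have hq : C * v1 ^ 2 - 2 * B * (v1 * v2) + A * v2 ^ 2 = Δ + g ^ 2 := by
    field_simp at hz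
    linear_combination hz
  obtain ⟨T0, hT0⟩ : ∃ T0, T0 = Δ + g ^ 2 := ⟨_, rfl⟩
  rw [← hT0] at hT hq
  have hT' := hT.ne'
  obtain ⟨m1, hm1⟩ : ∃ m1, m1 = (C * v1 - B * v2 + g * v2) / T0 := ⟨_, rfl⟩
  obtain ⟨m2, hm2⟩ : ∃ m2, m2 = (A * v2 - B * v1 - g * v1) / T0 := ⟨_, rfl⟩
  have n1 : T0 * m1 = C * v1 - B * v2 + g * v2 := by
    rw [hm1]
    field_simp
  have n2 : T0 * m2 = A * v2 - B * v1 - g * v1 := by
    rw [hm2]
    field_simp
  have F1 : m1 * v1 + m2 * v2 = 1 := by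
    apply mul_left_cancel₀ hT'
    linear_combination v1 * n1 + v2 * n2 + hq
  have G1 : T0 * (A * m1 + B * m2) = Δ * v1 + g * (A * v2 - B * v1) := by
    linear_combination A * n1 + B * n2 - v1 * hΔ'
  have G2 : T0 * (B * m1 + C * m2) = Δ * v2 - g * (C * v1 - B * v2) := by
    linear_combination B * n1 + C * n2 - v2 * hΔ'
  have F2 : A * m1 ^ 2 + 2 * B * (m1 * m2) + C * m2 ^ 2 = 1 := by
    apply mul_left_cancel₀ (mul_ne_zero hT' hT')
    linear_combination T0 * m1 * G1 + T0 * m2 * G2 + (Δ * v1 + g * (A * v2 - B * v1)) * n1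
      + (Δ * v2 - g * (C * v1 - B * v2)) * n2 + (Δ + g ^ 2) * hq - T0 * hT0
  have F3 : m1 * v2 - m2 * v1 = (C - A) * (m1 * m2) + B * (m1 ^ 2 - m2 ^ 2)
      + g * (m1 ^ 2 + m2 ^ 2) := by
    apply mul_left_cancel₀ hT'
    linear_combination -m1 * G2 + m2 * G1 - g * m1 * n1 - g * m2 * n2
      + (m1 * v2 - m2 * v1) * hT0
  have hne : m1 ≠ 0 ∨ m2 ≠ 0 := by
    by_contra hcon
    push Not at hcon
    rw [hcon.1, hcon.2] at F1
    norm_num at F1
  obtain ⟨R, x, hR, r1, r2⟩ := polar hne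
  have hp := T.pos x
  have e1 := T.sq x
  have e2 := T.hk x
  have e3 := sin_sq_add_cos_sq x
  have hR2 : hh γ o x * R = 1 := by
    have h1 : (hh γ o x * R) ^ 2 = 1 := by
      calc (hh γ o x * R) ^ 2 = A * (R * cos x) ^ 2 + 2 * B * ((R * cos x) * (R * sin x))
            + C * (R * sin x) ^ 2 := by rw [mul_pow, e1]; ring
        _ = 1 := by rw [r1, r2]; exact F2
    have h2 : 0 < hh γ o x * R := by positivity
    exact (pow_eq_one_iff_of_nonneg h2.le two_ne_zero).1 h1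
  refine ⟨x, ?_⟩
  rw [← sub_left_inj (a := o)]
  have hp' := hp.ne'
  have hRne := hR.ne'
  -- components of `z - o` in the frame of `x`
  have c1 : v1 * cos x + v2 * sin x = hh γ o x := by
    apply mul_left_cancel₀ hRne
    linear_combination F1 + v1 * r1 + v2 * r2 - hR2
  have c2 : v2 * cos x - v1 * sin x = kk γ o x + g / hh γ o x := by
    have e4 : R * (hh γ o x * kk γ o x) * R = (C - A) * (m1 * m2) + B * (m1 ^ 2 - m2 ^ 2) := by
      rw [e2, ← r1, ← r2]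
      ring
    have e5 : R * kk γ o x = (C - A) * (m1 * m2) + B * (m1 ^ 2 - m2 ^ 2) := by
      rw [← e4]
      linear_combination -(R * kk γ o x) * hR2
    have e6 : g / hh γ o x = g * R := by
      rw [div_eq_iff hp']
      linear_combination -g * hR2
    rw [e6]
    apply mul_left_cancel₀ hRne
    have e7 : m1 ^ 2 + m2 ^ 2 = R ^ 2 := by
      rw [← r1, ← r2]
      linear_combination R ^ 2 * e3
    linear_combination F3 + v2 * r1 - v1 * r2 - e5 + g * e7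
  apply Complex.ext
  · rw [pt_re, ← hv1, ← c2, ← c1]
    linear_combination -v1 * e3
  · rw [pt_im, ← hv2, ← c2, ← c1]
    linear_combination -v2 * e3

/-- the tangency with the zeroth point -/
theorem pt_zero (x : ℝ) : pt γ x 0 = γ x := by
  unfold pt
  simp

theorem main (F : OuterFoliation γ Φ) :
    ∃ (o : ℂ) (a b d : ℝ) (μ : ℝ → ℝ), 0 < a ∧ 0 < a * d - b ^ 2 ∧
      range γ = {z | quad a b d (z - o) = 1} ∧
      ∀ c ∈ Ioc (0 : ℝ) 1, 1 < μ c ∧ leafSet γ Φ c = {z | quad a b d (z - o) = μ c} := by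
  obtain ⟨ρ, hc, hρ⟩ := F.oval.normal
  have hper := F.oval.per
  have h1m : (1 : ℝ) ∈ Ioc (0 : ℝ) 1 := ⟨one_pos, le_rfl⟩
  -- the centre
  have hcen : ∃ o : ℂ, (∀ θ, γ (θ + π) = 2 * o - γ θ) ∧ ∀ θ, Φ 1 (Φ 1 θ) = θ + π := by
    rcases F.outer with h | ⟨⟨o, ho⟩, h4⟩
    · obtain ⟨o, ho⟩ := exists_center 0 hper hc hρ (mkLeaf F 0 (sup_of 0 hper hc hρ) h1m) h
      exact ⟨o, ho, h⟩
    · exact ⟨o, ho, second_case F o (sup_of o hper hc hρ) ho h4⟩
  obtain ⟨o, ho, hq⟩ := hcen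
  have S := sup_of o hper hc hρ
  have hs := hh_pi o ho
  have hpos := S.pos_of_sym hs
  have FF := mkFam F o S
  obtain ⟨m, M, hm, hM, hb⟩ := exists_bd F
  have EQ : Eqc (hh γ o) (kk γ o) ρ Φ (Pd Φ) (Qd Φ) (Rd Φ) :=
    { fam := FF
      zero := F.zero
      gap := ⟨m, hm, fun x => by have := (hb 1 h1m x).1; linarith⟩
      hpos := hpos
      eq := fun c hc x => rigid FF hm hM hb (FF.J_one hs hq).le hc x }
  obtain ⟨A, B, C, hform⟩ := EQ.form
  have T : Frm (hh γ o) (kk γ o) A B C := ⟨hpos, fun x => (hform x).1, fun x => (hform x).2⟩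
  have hΔ := T.det_pos
  have hC := T.C_pos
  refine ⟨o, C / (A * C - B ^ 2), -B / (A * C - B ^ 2), A / (A * C - B ^ 2),
    fun c => 1 + (hh γ o 0 * sp (hh γ o) (kk γ o) 0 (Φ c 0)) ^ 2 / (A * C - B ^ 2),
    by positivity, ?_, ?_, ?_⟩
  · have e : C / (A * C - B ^ 2) * (A / (A * C - B ^ 2)) - (-B / (A * C - B ^ 2)) ^ 2
        = 1 / (A * C - B ^ 2) := by
      field_simp
    rw [e]
    positivity
  · ext z
    constructor
    · rintro ⟨x, rfl⟩
      have := quad_pt o T x 0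
      rw [pt_zero] at this
      show quad _ _ _ _ = 1
      rw [this]
      simp
    · intro hz
      obtain ⟨x, hx⟩ := exists_tangent o T (g := 0) (z := z) (by
        have hz' : quad _ _ _ (z - o) = 1 := hz
        rw [hz']
        simp)
      rw [zero_div, pt_zero] at hx
      exact ⟨x, hx.symm⟩
  · intro c hc
    have L := FF.leaf c hc
    have hg0 : 0 < hh γ o 0 * sp (hh γ o) (kk γ o) 0 (Φ c 0) :=
      mul_pos (hpos 0) (div_pos (L.D_pos S 0) (L.sin_pos 0))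
    refine ⟨by
      have : 0 < (hh γ o 0 * sp (hh γ o) (kk γ o) 0 (Φ c 0)) ^ 2 / (A * C - B ^ 2) := by
        positivity
      linarith, ?_⟩
    ext z
    constructor
    · rintro ⟨x, h1, h2⟩
      obtain ⟨τ, rfl⟩ := exists_pt x h1
      rw [onTangent_pt o] at h2
      have e1 : τ = sp (hh γ o) (kk γ o) x (Φ c x) := by
        unfold sp
        rw [← h2, mul_div_assoc, div_self (L.sin_pos x).ne', mul_one]
      show quad _ _ _ _ = 1 + (hh γ o 0 * sp (hh γ o) (kk γ o) 0 (Φ c 0)) ^ 2 / (A * C - B ^ 2)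
      rw [quad_pt o T, e1, ← EQ.leaf_const' hc x]
      ring
    · intro hz
      obtain ⟨x, hx⟩ := exists_tangent o T hz
      refine ⟨x, ?_, ?_⟩
      · rw [hx, onTangent_pt o]
        unfold Dm
        simp
      · rw [hx, onTangent_pt o, ← EQ.leaf_const' hc x]
        have e1 := (hpos x).ne'
        have e2 := (L.sin_pos x).ne'
        unfold sp
        field_simp

end Pool.Agent.J4H53.OB
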