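import Pool.Agent.J4H53.OB.Fam

/-!
# The flux is nondecreasing in the leaf parameter
-/

namespace Pool.Agent.J4H53.OB

open Real Set MeasureTheory Filter Topology

variable {h k r : ℝ → ℝ} {Φ P Q R : ℝ → ℝ → ℝ}

section base

variable (ch : Continuous h) (ck : Continuous k) (cr : Continuous r)

include ch ck

theorem c_Dm : Continuous (fun p : ℝ × ℝ => Dm h k p.1 p.2) := by
  unfold Dm
  fun_prop

theorem c_Em : Continuous (fun p : ℝ × ℝ => Em h k p.1 p.2) := by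
  unfold Em
  fun_prop

theorem c_Dy : Continuous (fun p : ℝ × ℝ => Dy h k p.1 p.2) := by
  unfold Dy
  fun_prop

theorem c_Ex : Continuous (fun p : ℝ × ℝ => Ex h k p.1 p.2) := by
  unfold Ex
  fun_prop

theorem c_N1 : Continuous (fun p : ℝ × ℝ => N1 h k p.1 p.2) := by
  have h1 := c_Dm ch ck
  have h2 := c_Em ch ck
  unfold N1
  fun_prop

theorem c_N2 : Continuous (fun p : ℝ × ℝ => N2 h k p.1 p.2) := by
  have h1 := c_Dm ch ck
  have h2 := c_Em ch ck
  unfold N2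
  fun_prop

include cr

theorem c_N1y : Continuous (fun p : ℝ × ℝ => N1y h k r p.1 p.2) := by
  have h1 := c_Dm ch ck
  have h2 := c_Em ch ck
  have h3 := c_Dy ch ck
  have h4 := c_Ex ch ck
  unfold N1y
  fun_prop

theorem c_N2y : Continuous (fun p : ℝ × ℝ => N2y h k r p.1 p.2) := by
  have h1 := c_Dm ch ck
  have h2 := c_Em ch ck
  have h3 := c_Dy ch ck
  have h4 := c_Ex ch ck
  unfold N2y
  fun_prop

end base

theorem gen_div {S : Set (ℝ × ℝ)} {N s : ℝ × ℝ → ℝ} (hN : Continuous N) (hs : Continuous s)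
    (h0 : ∀ p ∈ S, s p ≠ 0) (n : ℕ) : ContinuousOn (fun p => N p / s p ^ n) S :=
  hN.continuousOn.div (hs.pow n).continuousOn (fun p hp => pow_ne_zero n (h0 p hp))

theorem gen_der {S : Set (ℝ × ℝ)} {M N s c : ℝ × ℝ → ℝ} (hM : Continuous M) (hN : Continuous N)
    (hs : Continuous s) (hc : Continuous c) (h0 : ∀ p ∈ S, s p ≠ 0) :
    ContinuousOn (fun p => M p / s p ^ 3 - 3 * c p * N p / s p ^ 4) S :=
  (gen_div hM hs h0 3).sub (gen_div ((continuous_const.mul hc).mul hN) hs h0 4)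

theorem gen_pst {S : Set (ℝ × ℝ)} {p1 q1 D E P Q s : ℝ × ℝ → ℝ} (c1 : Continuous p1)
    (c2 : Continuous q1) (c3 : Continuous D) (c4 : Continuous E) (c5 : Continuous P)
    (c6 : Continuous Q) (c7 : Continuous s) (h0 : ∀ p ∈ S, s p ≠ 0) (h1 : ∀ p ∈ S, P p ≠ 0) :
    ContinuousOn (fun p => Q p * ((p1 p * E p * P p - q1 p * D p) ^ 2 / (P p * s p ^ 4)
      + 2 * (p1 p * D p - q1 p * E p) ^ 2 / s p ^ 4)) S := by
  have e1 : ContinuousOn (fun p => (p1 p * E p * P p - q1 p * D p) ^ 2 / (P p * s p ^ 4)) S :=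
    ContinuousOn.div (by fun_prop) (by fun_prop)
      (fun p hp => mul_ne_zero (h1 p hp) (pow_ne_zero 4 (h0 p hp)))
  have e2 : ContinuousOn (fun p => 2 * (p1 p * D p - q1 p * E p) ^ 2 / s p ^ 4) S :=
    ContinuousOn.div (by fun_prop) (by fun_prop) (fun p hp => pow_ne_zero 4 (h0 p hp))
  exact c6.continuousOn.mul (e1.add e2)

/-- The parameter domain. -/
def dom : Set (ℝ × ℝ) := Ioc (0 : ℝ) 1 ×ˢ univ

section cont

variable (F : Fam h k r Φ P Q R)

include F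

theorem Fam.c_pair : Continuous (fun p : ℝ × ℝ => (p.2, Φ p.1 p.2)) := by
  have hΦ := F.cΦ
  fun_prop

theorem Fam.sin_ne {p : ℝ × ℝ} (hp : p ∈ dom) : sin (Φ p.1 p.2 - p.2) ≠ 0 :=
  ((F.leaf p.1 hp.1).sin_pos p.2).ne'

theorem Fam.c_sin : Continuous (fun p : ℝ × ℝ => sin (Φ p.1 p.2 - p.2)) := by
  have hΦ := F.cΦ
  fun_prop

theorem Fam.c_cos : Continuous (fun p : ℝ × ℝ => cos (Φ p.1 p.2 - p.2)) := by
  have hΦ := F.cΦ
  fun_prop

theorem Fam.c_D : Continuous (fun p : ℝ × ℝ => Dm h k p.2 (Φ p.1 p.2)) :=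
  (c_Dm F.sup.ch F.sup.ck).comp F.c_pair

theorem Fam.c_E : Continuous (fun p : ℝ × ℝ => Em h k p.2 (Φ p.1 p.2)) :=
  (c_Em F.sup.ch F.sup.ck).comp F.c_pair

theorem Fam.c_A1 : ContinuousOn (fun p : ℝ × ℝ => A1 h k p.2 (Φ p.1 p.2)) dom := by
  have h1 : Continuous (fun p : ℝ × ℝ => N1 h k p.2 (Φ p.1 p.2)) :=
    (c_N1 F.sup.ch F.sup.ck).comp F.c_pair
  exact h1.continuousOn.div (F.c_sin.pow 3).continuousOn (fun p hp => pow_ne_zero 3 (F.sin_ne hp))

theorem Fam.c_A2 : ContinuousOn (fun p : ℝ × ℝ => A2 h k p.2 (Φ p.1 p.2)) dom := by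
  have h1 : Continuous (fun p : ℝ × ℝ => N2 h k p.2 (Φ p.1 p.2)) :=
    (c_N2 F.sup.ch F.sup.ck).comp F.c_pair
  exact h1.continuousOn.div (F.c_sin.pow 3).continuousOn (fun p hp => pow_ne_zero 3 (F.sin_ne hp))

theorem Fam.c_N1' : Continuous (fun p : ℝ × ℝ => N1 h k p.2 (Φ p.1 p.2)) := by
  have e := (c_N1 F.sup.ch F.sup.ck).comp F.c_pair
  exact e

theorem Fam.c_N2' : Continuous (fun p : ℝ × ℝ => N2 h k p.2 (Φ p.1 p.2)) := by
  have e := (c_N2 F.sup.ch F.sup.ck).comp F.c_pair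
  exact e

theorem Fam.c_N1y' : Continuous (fun p : ℝ × ℝ => N1y h k r p.2 (Φ p.1 p.2)) := by
  have e := (c_N1y F.sup.ch F.sup.ck F.sup.cr).comp F.c_pair
  exact e

theorem Fam.c_N2y' : Continuous (fun p : ℝ × ℝ => N2y h k r p.2 (Φ p.1 p.2)) := by
  have e := (c_N2y F.sup.ch F.sup.ck F.sup.cr).comp F.c_pair
  exact e

theorem Fam.c_A1y : ContinuousOn (fun p : ℝ × ℝ => A1y h k r p.2 (Φ p.1 p.2)) dom := by
  have e := gen_der F.c_N1y' F.c_N1' F.c_sin F.c_cos (fun p (hp : p ∈ dom) => F.sin_ne hp)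
  unfold A1y
  exact e

theorem Fam.c_A2y : ContinuousOn (fun p : ℝ × ℝ => A2y h k r p.2 (Φ p.1 p.2)) dom := by
  have e := gen_der F.c_N2y' F.c_N2' F.c_sin F.c_cos (fun p (hp : p ∈ dom) => F.sin_ne hp)
  unfold A2y
  exact e

theorem Fam.c_flx : ContinuousOn (fun p : ℝ × ℝ => flx h k Φ P p.1 p.2) dom :=
  F.c_A2.sub (F.c_A1.mul (F.cP.continuousOn (s := dom)))

theorem Fam.c_aux : ContinuousOn (fun p : ℝ × ℝ => aux h k Φ Q p.1 p.2) dom :=
  F.c_A1.mul (F.cQ.continuousOn (s := dom))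

theorem Fam.c_flxC : ContinuousOn (fun p : ℝ × ℝ => flxC h k r Φ P Q R p.1 p.2) dom := by
  have h5 := F.cP.continuousOn (s := dom)
  have h6 := F.cQ.continuousOn (s := dom)
  have h7 := F.cR.continuousOn (s := dom)
  exact (F.c_A2y.mul h6).sub (((F.c_A1y.mul h6).mul h5).add (F.c_A1.mul h7))

theorem Fam.c_rho : ContinuousOn (fun p : ℝ × ℝ => rho h k Φ Q p.1 p.2) dom :=
  (F.cQ.continuousOn (s := dom)).mul ((F.c_D.mul F.c_E).continuousOn.div
    (F.c_sin.pow 3).continuousOn (fun _ hp => pow_ne_zero 3 (F.sin_ne hp)))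

theorem Fam.c_h : Continuous (fun p : ℝ × ℝ => h p.2) := F.sup.ch.comp continuous_snd

theorem Fam.c_hΦ : Continuous (fun p : ℝ × ℝ => h (Φ p.1 p.2)) := F.sup.ch.comp F.cΦ

theorem Fam.c_pst : ContinuousOn (fun p : ℝ × ℝ => pst h k Φ P Q p.1 p.2) dom :=
  gen_pst F.c_h F.c_hΦ F.c_D F.c_E F.cP F.cQ F.c_sin (fun _ hp => F.sin_ne hp)
    (fun p hp => ((F.leaf p.1 hp.1).pos p.2).ne')

omit F in
theorem slice {G : ℝ → ℝ → ℝ} (h : ContinuousOn (fun p : ℝ × ℝ => G p.1 p.2) dom) {c : ℝ}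
    (hc : c ∈ Ioc (0 : ℝ) 1) : Continuous (G c) :=
  h.comp_continuous (f := fun x => (c, x)) (by fun_prop) (fun x => ⟨hc, mem_univ _⟩)

theorem Fam.c_F1 {c : ℝ} (hc : c ∈ Ioc (0 : ℝ) 1) : Continuous (F1 h k r (Φ c) (P c)) := by
  have L := F.leaf c hc
  have h0 := F.sup.ch
  have h1 := F.sup.cr
  have h2 := L.contφ
  have h3 := L.cont
  have h4 : Continuous (fun x => Dm h k x (Φ c x)) :=
    F.c_D.comp (Continuous.prodMk_right c)
  have h5 : Continuous (fun x => Em h k x (Φ c x)) :=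
    F.c_E.comp (Continuous.prodMk_right c)
  have h6 : Continuous (fun x => sin (Φ c x - x)) := by fun_prop
  have h7 : Continuous (fun x => cos (Φ c x - x)) := by fun_prop
  exact (h0.pow 2).mul ((((h1.mul h6).div h4 (fun x => (L.D_pos F.sup x).ne')).sub
    (h7.div h6 (fun x => (L.sin_pos x).ne'))).sub
    ((h5.mul h3).div (h4.mul h6) (fun x => mul_ne_zero (L.D_pos F.sup x).ne' (L.sin_pos x).ne')))

end cont

section per

variable (F : Fam h k r Φ P Q R) {c : ℝ} (hc : c ∈ Ioc (0 : ℝ) 1) (x : ℝ)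

theorem per_Dm (S : Sup h k r) (x y : ℝ) : Dm h k (x + 2 * π) (y + 2 * π) = Dm h k x y := by
  unfold Dm
  rw [show y + 2 * π - (x + 2 * π) = y - x by ring, S.ph, S.ph, S.pk]

theorem per_Em (S : Sup h k r) (x y : ℝ) : Em h k (x + 2 * π) (y + 2 * π) = Em h k x y := by
  unfold Em
  rw [show y + 2 * π - (x + 2 * π) = y - x by ring, S.ph, S.ph, S.pk]

theorem per_A1 (S : Sup h k r) (x y : ℝ) : A1 h k (x + 2 * π) (y + 2 * π) = A1 h k x y := by
  unfold A1 N1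
  rw [show y + 2 * π - (x + 2 * π) = y - x by ring, S.ph, S.ph, per_Dm S, per_Em S]

theorem per_A2 (S : Sup h k r) (x y : ℝ) : A2 h k (x + 2 * π) (y + 2 * π) = A2 h k x y := by
  unfold A2 N2
  rw [show y + 2 * π - (x + 2 * π) = y - x by ring, S.ph, S.ph, per_Dm S, per_Em S]

include F hc

theorem Fam.per_P : P c (x + 2 * π) = P c x := by
  have h1 : HasDerivAt (fun x => Φ c (x + 2 * π)) (P c (x + 2 * π)) x :=
    (F.dx c (x + 2 * π)).comp_add_const x (2 * π)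
  have h2 : (fun x => Φ c (x + 2 * π)) = fun x => Φ c x + 2 * π := funext (F.leaf c hc).per
  rw [h2] at h1
  exact h1.unique ((F.dx c x).add_const _)

theorem Fam.per_aux : aux h k Φ Q c (x + 2 * π) = aux h k Φ Q c x := by
  unfold aux
  rw [(F.leaf c hc).per, per_A1 F.sup, F.Qper c hc]

theorem Fam.per_rho : rho h k Φ Q c (x + 2 * π) = rho h k Φ Q c x := by
  unfold rho
  rw [(F.leaf c hc).per, per_Dm F.sup, per_Em F.sup, F.Qper c hc,
    show Φ c x + 2 * π - (x + 2 * π) = Φ c x - x by ring]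

theorem Fam.per_F1 : F1 h k r (Φ c) (P c) (x + 2 * π) = F1 h k r (Φ c) (P c) x := by
  unfold F1
  rw [(F.leaf c hc).per, per_Dm F.sup, per_Em F.sup, F.per_P hc, F.sup.ph, F.sup.pr,
    show Φ c x + 2 * π - (x + 2 * π) = Φ c x - x by ring]

theorem Fam.per_flx : flx h k Φ P c (x + 2 * π) = flx h k Φ P c x := by
  unfold flx
  rw [(F.leaf c hc).per, per_A1 F.sup, per_A2 F.sup, F.per_P hc]

theorem Fam.per_pst : pst h k Φ P Q c (x + 2 * π) = pst h k Φ P Q c x := by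
  unfold pst Mm
  rw [(F.leaf c hc).per, per_Dm F.sup, per_Em F.sup, F.per_P hc, F.Qper c hc, F.sup.ph, F.sup.ph,
    show Φ c x + 2 * π - (x + 2 * π) = Φ c x - x by ring]

end per

/-- The flux through the leaf `c`. -/
noncomputable def J (h k : ℝ → ℝ) (Φ P : ℝ → ℝ → ℝ) (c : ℝ) : ℝ :=
  ∫ x in (0 : ℝ)..2 * π, flx h k Φ P c x

theorem Fam.int_flxC (F : Fam h k r Φ P Q R) {c : ℝ} (hc : c ∈ Ioo (0 : ℝ) 1) :
    ∫ x in (0 : ℝ)..2 * π, flxC h k r Φ P Q R c x = ∫ x in (0 : ℝ)..2 * π, pst h k Φ P Q c x := by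
  have hc' : c ∈ Ioc (0 : ℝ) 1 := ⟨hc.1, hc.2.le⟩
  have c1 : Continuous (flxC h k r Φ P Q R c) := slice F.c_flxC hc'
  have c2 : Continuous (pst h k Φ P Q c) := slice F.c_pst hc'
  have c3 : Continuous (rho h k Φ Q c) := slice F.c_rho hc'
  have c4 := F.c_F1 hc'
  have c5 := (F.leaf c hc').contφ
  have h1 := intervalIntegral.integral_eq_sub_of_hasDerivAt (a := 0) (b := 2 * π)
    (fun x _ => F.daux hc' x) (Continuous.intervalIntegrable (by fun_prop) _ _)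
  have h2 : aux h k Φ Q c (2 * π) = aux h k Φ Q c 0 := by simpa using F.per_aux hc' 0
  rw [h2, sub_self, intervalIntegral.integral_sub (Continuous.intervalIntegrable (by fun_prop) _ _)
    (Continuous.intervalIntegrable (by fun_prop) _ _),
    intervalIntegral.integral_sub (Continuous.intervalIntegrable (by fun_prop) _ _)
    (Continuous.intervalIntegrable (by fun_prop) _ _),
    intervalIntegral.integral_add (Continuous.intervalIntegrable (by fun_prop) _ _)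
    (Continuous.intervalIntegrable (by fun_prop) _ _),
    integral_invariant (F.leaf c hc') c4 c3 (F.per_F1 hc') (F.per_rho hc')
      (F.invariant hc)] at h1
  linarith

theorem Fam.dJ (F : Fam h k r Φ P Q R) {c : ℝ} (hc : c ∈ Ioo (0 : ℝ) 1) :
    HasDerivAt (J h k Φ P) (∫ x in (0 : ℝ)..2 * π, pst h k Φ P Q c x) c := by
  rw [← F.int_flxC hc]
  obtain ⟨a, ha0, hac⟩ := exists_between hc.1
  obtain ⟨b, hcb, hb1⟩ := exists_between hc.2
  have hsub : Icc a b ×ˢ uIcc (0 : ℝ) (2 * π) ⊆ dom := fun p hp =>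
    ⟨⟨lt_of_lt_of_le ha0 hp.1.1, hp.1.2.trans hb1.le⟩, mem_univ _⟩
  obtain ⟨C, hC⟩ := (isCompact_Icc.prod isCompact_uIcc).exists_bound_of_continuousOn
    (F.c_flxC.mono hsub)
  refine (intervalIntegral.hasDerivAt_integral_of_dominated_loc_of_deriv_le (F := flx h k Φ P)
    (F' := flxC h k r Φ P Q R) (bound := fun _ => C) (s := Ioo a b) (Ioo_mem_nhds hac hcb)
    ?_ ?_ ?_ ?_ ?_ ?_).2
  · filter_upwards [Ioo_mem_nhds hac hcb] with s hs
    exact (slice F.c_flx ⟨ha0.trans hs.1, (hs.2.trans hb1).le⟩).aestronglyMeasurable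
  · exact (slice F.c_flx ⟨hc.1, hc.2.le⟩).intervalIntegrable _ _
  · exact (slice F.c_flxC ⟨hc.1, hc.2.le⟩).aestronglyMeasurable
  · refine Filter.Eventually.of_forall fun t ht s hs => ?_
    exact hC (s, t) ⟨⟨hs.1.le, hs.2.le⟩, uIoc_subset_uIcc ht⟩
  · exact intervalIntegrable_const
  · exact Filter.Eventually.of_forall fun t _ s hs =>
      F.dflx ⟨ha0.trans hs.1, (hs.2.trans hb1).le⟩ t

theorem Fam.pst_nonneg (F : Fam h k r Φ P Q R) {c : ℝ} (hc : c ∈ Ioc (0 : ℝ) 1) (x : ℝ) :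
    0 ≤ pst h k Φ P Q c x := by
  have L := F.leaf c hc
  have h1 := L.pos x
  have h3 := F.Qpos c hc x
  have h4 := L.sin_pos x
  unfold pst
  positivity

theorem Fam.contJ (F : Fam h k r Φ P Q R) : ContinuousOn (J h k Φ P) (Ioc 0 1) := by
  rw [continuousOn_iff_continuous_domRestrict]
  have h1 : Continuous (Function.uncurry (fun (t : Ioc (0 : ℝ) 1) (x : ℝ) => flx h k Φ P t x)) := by
    have h2 : Continuous (fun p : (Ioc (0 : ℝ) 1 : Set ℝ) × ℝ => (((p.1 : ℝ), p.2) : ℝ × ℝ)) := by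
      fun_prop
    have e := F.c_flx.comp_continuous h2 (fun p => ⟨p.1.2, mem_univ _⟩)
    exact e
  have h3 : (Ioc (0 : ℝ) 1).domRestrict (J h k Φ P)
      = fun t : Ioc (0 : ℝ) 1 => ∫ x in (0 : ℝ)..2 * π, flx h k Φ P t x := rfl
  rw [h3]
  exact intervalIntegral.continuous_parametric_intervalIntegral_of_continuous' h1 0 (2 * π)

theorem Fam.monoJ (F : Fam h k r Φ P Q R) : MonotoneOn (J h k Φ P) (Ioc 0 1) := by
  refine monotoneOn_of_deriv_nonneg (convex_Ioc 0 1) F.contJ ?_ ?_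
  · rw [interior_Ioc]
    exact fun c hc => (F.dJ hc).differentiableAt.differentiableWithinAt
  · rw [interior_Ioc]
    intro c hc
    rw [(F.dJ hc).deriv]
    exact intervalIntegral.integral_nonneg (by positivity)
      (fun x _ => F.pst_nonneg ⟨hc.1, hc.2.le⟩ x)

end Pool.Agent.J4H53.OB
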