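import Pool.Agent.J4H53.OB.Basic

/-!
# Derivatives of the fields; one leaf
-/

namespace Pool.Agent.J4H53.OB

open Real Set MeasureTheory Filter Topology

variable {h k r : ℝ → ℝ}

section deriv

variable {X Y : ℝ → ℝ} {X' Y' t : ℝ}

theorem Sup.der_N1 (S : Sup h k r) (hX : HasDerivAt X X' t) (hY : HasDerivAt Y Y' t) :
    HasDerivAt (fun t => N1 h k (X t) (Y t))
      (N1x h k r (X t) (Y t) * X' + N1y h k r (X t) (Y t) * Y') t := by
  have hp := S.der_h hX
  have hq := S.der_h hY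
  have hD := S.der_D hX hY
  have hE := S.der_E hX hY
  have hc := der_cos hX hY
  have e := ((((((hp.pow 2).mul hD).mul hE).neg).add
    (((hp.mul hq).mul (hE.pow 2)).const_mul (1 / 2))).add
    (((hc.mul (hq.pow 2)).mul (hE.pow 2)).const_mul (1 / 2))).add
    ((hq.mul (hE.pow 3)).const_mul (1 / 2))
  refine e.congr_deriv ?_
  unfold N1x N1y
  simp only [Pi.mul_apply, Pi.pow_apply, Nat.cast_ofNat, Nat.add_one_sub_one, pow_one]
  ring

theorem Sup.der_N2y (S : Sup h k r) (x : ℝ) (hY : HasDerivAt Y Y' t) :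
    HasDerivAt (fun t => N2 h k x (Y t)) (N2y h k r x (Y t) * Y') t := by
  have hX : HasDerivAt (fun _ : ℝ => x) 0 t := hasDerivAt_const t x
  have hp := S.der_h hX
  have hq := S.der_h hY
  have hD := S.der_D hX hY
  have hE := S.der_E hX hY
  have hc := der_cos hX hY
  have e := (((((hq.pow 2).mul hD).mul hE).sub
    (((hp.mul hq).mul (hD.pow 2)).const_mul (1 / 2))).sub
    (((hc.mul (hp.pow 2)).mul (hD.pow 2)).const_mul (1 / 2))).sub
    ((hp.mul (hD.pow 3)).const_mul (1 / 2))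
  refine e.congr_deriv ?_
  unfold N2y
  simp only [Pi.mul_apply, Pi.pow_apply, Nat.cast_ofNat, Nat.add_one_sub_one, pow_one]
  ring

theorem Sup.der_A1 (S : Sup h k r) (hX : HasDerivAt X X' t) (hY : HasDerivAt Y Y' t)
    (hs : sin (Y t - X t) ≠ 0) :
    HasDerivAt (fun t => A1 h k (X t) (Y t))
      (A1x h k r (X t) (Y t) * X' + A1y h k r (X t) (Y t) * Y') t := by
  have e := (S.der_N1 hX hY).div ((der_sin hX hY).pow 3) (pow_ne_zero 3 hs)
  refine e.congr_deriv ?_
  unfold A1x A1y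
  simp only [Pi.pow_apply, Nat.cast_ofNat, Nat.add_one_sub_one]
  field_simp
  ring

theorem Sup.der_A2y (S : Sup h k r) (x : ℝ) (hY : HasDerivAt Y Y' t)
    (hs : sin (Y t - x) ≠ 0) :
    HasDerivAt (fun t => A2 h k x (Y t)) (A2y h k r x (Y t) * Y') t := by
  have hX : HasDerivAt (fun _ : ℝ => x) 0 t := hasDerivAt_const t x
  have e := (S.der_N2y x hY).div ((der_sin hX hY).pow 3) (pow_ne_zero 3 hs)
  refine e.congr_deriv ?_
  unfold A2y
  simp only [Pi.pow_apply, Nat.cast_ofNat, Nat.add_one_sub_one]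
  field_simp
  ring

end deriv

/-! ### positivity -/

theorem sin_pos_of {x y : ℝ} (h1 : x < y) (h2 : y < x + π) : 0 < sin (y - x) :=
  sin_pos_of_pos_of_lt_pi (by linarith) (by linarith)

theorem Sup.E_pos (S : Sup h k r) {x y : ℝ} (h1 : x < y) (h2 : y < x + π) : 0 < Em h k x y := by
  have hm : StrictMonoOn (Em h k x) (Icc x (x + π)) := by
    refine strictMonoOn_of_deriv_pos (convex_Icc _ _) ?_ ?_
    · intro t _
      exact (S.der_E (hasDerivAt_const t x) (hasDerivAt_id t)).continuousAt.continuousWithinAt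
    · rw [interior_Icc]
      intro t ht
      have e := S.der_E (hasDerivAt_const t x) (hasDerivAt_id t)
      have e2 : HasDerivAt (Em h k x) (r t * sin (t - x)) t := by
        refine e.congr_deriv ?_
        simp
      rw [e2.deriv]
      exact mul_pos (S.pos t) (sin_pos_of ht.1 ht.2)
  have h3 := hm ⟨le_rfl, by linarith [pi_pos]⟩ ⟨h1.le, h2.le⟩ h1
  have h4 : Em h k x x = 0 := by
    unfold Em
    simp
  rwa [h4] at h3

theorem Sup.D_pos (S : Sup h k r) {x y : ℝ} (h1 : x < y) (h2 : y < x + π) : 0 < Dm h k x y := by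
  have hm : StrictAntiOn (fun t => Dm h k t y) (Icc (y - π) y) := by
    refine strictAntiOn_of_deriv_neg (convex_Icc _ _) ?_ ?_
    · intro t _
      exact (S.der_D (hasDerivAt_id t) (hasDerivAt_const t y)).continuousAt.continuousWithinAt
    · rw [interior_Icc]
      intro t ht
      have e := S.der_D (hasDerivAt_id t) (hasDerivAt_const t y)
      have e2 : HasDerivAt (fun t => Dm h k t y) (-(r t * sin (y - t))) t := by
        refine e.congr_deriv ?_
        simp
      rw [e2.deriv]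
      have := mul_pos (S.pos t) (sin_pos_of ht.2 (by linarith [ht.1]))
      linarith
  have h3 := hm ⟨by linarith, h1.le⟩ ⟨by linarith [pi_pos], le_rfl⟩ h1
  have h4 : Dm h k y y = 0 := by
    unfold Dm
    simp
  simp only [h4] at h3
  exact h3

/-! ### leaves -/

/-- An invariant leaf of the outer billiard: `φ x` is the second tangency point of the leaf point
on the tangent line at `x`. -/
structure Leaf (h k r : ℝ → ℝ) (φ φ' : ℝ → ℝ) : Prop where
  der : ∀ x, HasDerivAt φ (φ' x) x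
  cont : Continuous φ'
  pos : ∀ x, 0 < φ' x
  per : ∀ x, φ (x + 2 * π) = φ x + 2 * π
  lo : ∀ x, x < φ x
  hi : ∀ x, φ x < x + π
  el : ∀ x, sp h k (φ x) (φ (φ x)) = sm h k x (φ x)

variable {φ φ' : ℝ → ℝ}

theorem Leaf.sin_pos (L : Leaf h k r φ φ') (x : ℝ) : 0 < sin (φ x - x) :=
  sin_pos_of (L.lo x) (L.hi x)

theorem Leaf.contφ (L : Leaf h k r φ φ') : Continuous φ :=
  continuous_iff_continuousAt.2 fun x => (L.der x).continuousAt

theorem Leaf.D_pos (S : Sup h k r) (L : Leaf h k r φ φ') (x : ℝ) : 0 < Dm h k x (φ x) :=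
  S.D_pos (L.lo x) (L.hi x)

theorem Leaf.E_pos (S : Sup h k r) (L : Leaf h k r φ φ') (x : ℝ) : 0 < Em h k x (φ x) :=
  S.E_pos (L.lo x) (L.hi x)

/-- linearised leaf equation -/
theorem Leaf.lin (S : Sup h k r) (L : Leaf h k r φ φ') (x : ℝ) :
    Dm h k x (φ x) / sin (φ x - x) ^ 2 =
      φ' x * (2 * r (φ x)
        - cos (φ (φ x) - φ x) * Dm h k (φ x) (φ (φ x)) / sin (φ (φ x) - φ x) ^ 2
        - cos (φ x - x) * Em h k x (φ x) / sin (φ x - x) ^ 2
        - Em h k (φ x) (φ (φ x)) / sin (φ (φ x) - φ x) ^ 2 * φ' (φ x)) := by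
  have hy := L.der x
  have hz : HasDerivAt (fun x => φ (φ x)) (φ' (φ x) * φ' x) x := (L.der (φ x)).comp x hy
  have h1 := S.der_sp hy hz (L.sin_pos (φ x)).ne'
  have h2 := S.der_sm (hasDerivAt_id x) hy (L.sin_pos x).ne'
  have h3 : (fun t => sp h k (φ t) (φ (φ t))) = fun t => sm h k (id t) (φ t) := by
    funext t
    exact L.el t
  rw [h3] at h1
  have h4 := h1.unique h2
  simp only [id] at h4
  linear_combination h4

/-- The coboundary function. -/
noncomputable def F1 (h k r : ℝ → ℝ) (φ φ' : ℝ → ℝ) (x : ℝ) : ℝ :=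
  h x ^ 2 * (r x * sin (φ x - x) / Dm h k x (φ x) - cos (φ x - x) / sin (φ x - x)
    - Em h k x (φ x) * φ' x / (Dm h k x (φ x) * sin (φ x - x)))

theorem Leaf.F1_next (S : Sup h k r) (L : Leaf h k r φ φ') (x : ℝ) :
    F1 h k r φ φ' (φ x) = h (φ x) ^ 2 * (Dm h k x (φ x) / (Em h k x (φ x) * sin (φ x - x) * φ' x)
      - r (φ x) * sin (φ x - x) / Em h k x (φ x) + cos (φ x - x) / sin (φ x - x)) := by
  have h1 := L.lin S x
  have h2 := L.el x
  have h3 := (L.sin_pos x).ne'
  have h4 := (L.sin_pos (φ x)).ne'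
  have h5 := (L.D_pos S x).ne'
  have h6 := (L.E_pos S x).ne'
  have h7 := (L.D_pos S (φ x)).ne'
  have h8 := (L.pos x).ne'
  unfold sp sm at h2
  unfold F1
  generalize cos (φ x - x) = c at *
  generalize sin (φ x - x) = s at *
  generalize cos (φ (φ x) - φ x) = c' at *
  generalize sin (φ (φ x) - φ x) = s' at *
  generalize Dm h k x (φ x) = D at *
  generalize Em h k x (φ x) = E at *
  generalize Dm h k (φ x) (φ (φ x)) = D' at *
  generalize Em h k (φ x) (φ (φ x)) = E' at *
  generalize φ' x = P at *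
  generalize φ' (φ x) = P' at *
  generalize r (φ x) = ρ at *
  have hD' : D' = E * s' / s := by
    field_simp at h2 ⊢
    linarith
  subst hD'
  congr 1
  field_simp
  field_simp at h1
  linear_combination -h1

/-- the leafwise Hopf identity -/
theorem Leaf.hopf (S : Sup h k r) (L : Leaf h k r φ φ') (x : ℝ) :
    (r x * h x ^ 2 * Em h k x (φ x) + r (φ x) * h (φ x) ^ 2 * Dm h k x (φ x))
        / sin (φ x - x) ^ 2
      - Dm h k x (φ x) * Em h k x (φ x)
        * (cos (φ x - x) * (h x ^ 2 + h (φ x) ^ 2) + 2 * (h x * h (φ x))) / sin (φ x - x) ^ 4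
    = (h x * Em h k x (φ x) * φ' x - h (φ x) * Dm h k x (φ x)) ^ 2 / (φ' x * sin (φ x - x) ^ 4)
      + Dm h k x (φ x) * Em h k x (φ x) / sin (φ x - x) ^ 3
        * (F1 h k r φ φ' x - F1 h k r φ φ' (φ x)) := by
  rw [L.F1_next S x]
  have h3 := (L.sin_pos x).ne'
  have h5 := (L.D_pos S x).ne'
  have h6 := (L.E_pos S x).ne'
  have h8 := (L.pos x).ne'
  unfold F1
  field_simp
  ring

/-- Substitution on a period. -/
theorem integral_comp_leaf (L : Leaf h k r φ φ') {F : ℝ → ℝ} (hF : Continuous F)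
    (hp : ∀ x, F (x + 2 * π) = F x) :
    ∫ x in (0 : ℝ)..2 * π, F (φ x) * φ' x = ∫ x in (0 : ℝ)..2 * π, F x := by
  have h1 := intervalIntegral.integral_comp_mul_deriv (a := 0) (b := 2 * π) (f := φ) (f' := φ')
    (g := F) (fun x _ => L.der x) L.cont.continuousOn hF
  have h2 : φ (2 * π) = φ 0 + 2 * π := by simpa using L.per 0
  have h3 : Function.Periodic F (2 * π) := hp
  have h4 := h3.intervalIntegral_add_eq (φ 0) 0
  rw [h2, h4, zero_add] at h1
  exact h1

/-- Invariance of a density. -/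
theorem integral_invariant (L : Leaf h k r φ φ') {ρ F : ℝ → ℝ} (hF : Continuous F)
    (hρ : Continuous ρ) (hFp : ∀ x, F (x + 2 * π) = F x) (hρp : ∀ x, ρ (x + 2 * π) = ρ x)
    (hinv : ∀ x, ρ (φ x) * φ' x = ρ x) :
    ∫ x in (0 : ℝ)..2 * π, ρ x * F (φ x) = ∫ x in (0 : ℝ)..2 * π, ρ x * F x := by
  rw [← integral_comp_leaf L (F := fun x => ρ x * F x) (hρ.mul hF)
    (fun x => by rw [hFp, hρp])]
  congr 1
  funext x
  rw [← hinv x]
  ring

end Pool.Agent.J4H53.OB
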