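import Pool.Agent.J4H53.OB.Flux

/-!
# The flux tends to zero at the curve, and the analytic conclusion
-/

namespace Pool.Agent.J4H53.OB

open Real Set MeasureTheory Filter Topology

variable {h k r : ℝ → ℝ} {Φ P Q R : ℝ → ℝ → ℝ}

theorem per_bound {f : ℝ → ℝ} (hf : Continuous f) (hp : ∀ x, f (x + 2 * π) = f x) :
    ∃ B, 0 < B ∧ ∀ x, |f x| ≤ B := by
  obtain ⟨C, hC⟩ := (isCompact_Icc (a := (0 : ℝ)) (b := 2 * π)).exists_bound_of_continuousOn
    hf.continuousOn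
  refine ⟨max C 1, lt_of_lt_of_le one_pos (le_max_right _ _), fun x => ?_⟩
  obtain ⟨y, hy, e⟩ := (show Function.Periodic f (2 * π) from hp).exists_mem_Ico₀ two_pi_pos x
  rw [e]
  exact (hC y ⟨hy.1, hy.2.le⟩).trans (le_max_left _ _)

theorem Sup.D_bound (S : Sup h k r) {B : ℝ} (hB : ∀ x, |r x| ≤ B) {x y : ℝ} (hxy : x ≤ y) :
    |Dm h k x y| ≤ B * (y - x) ^ 2 := by
  have hB0 : 0 ≤ B := (abs_nonneg _).trans (hB 0)
  have h1 := (convex_Icc x y).norm_image_sub_le_of_norm_hasDerivWithin_le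
    (f := fun t => Dm h k t y) (f' := fun t => -(r t * sin (y - t))) (C := B * (y - x))
    (fun t _ => by
      have e := S.der_D (hasDerivAt_id t) (hasDerivAt_const t y)
      have e2 : HasDerivAt (fun t => Dm h k t y) (-(r t * sin (y - t))) t := by
        refine e.congr_deriv ?_
        simp
      exact e2.hasDerivWithinAt)
    (fun t ht => by
      rw [norm_neg, norm_mul, norm_eq_abs, norm_eq_abs]
      have e1 : |sin (y - t)| ≤ y - x := by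
        refine (abs_sin_le_abs).trans ?_
        rw [abs_of_nonneg (by linarith [ht.2])]
        linarith [ht.1]
      exact mul_le_mul (hB t) e1 (abs_nonneg _) hB0)
    (right_mem_Icc.2 hxy) (left_mem_Icc.2 hxy)
  have h2 : Dm h k y y = 0 := by
    unfold Dm
    simp
  rw [h2, sub_zero, norm_eq_abs, norm_eq_abs, abs_sub_comm x y,
    abs_of_nonneg (by linarith : (0 : ℝ) ≤ y - x)] at h1
  linarith

theorem Sup.E_bound (S : Sup h k r) {B : ℝ} (hB : ∀ x, |r x| ≤ B) {x y : ℝ} (hxy : x ≤ y) :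
    |Em h k x y| ≤ B * (y - x) ^ 2 := by
  have hB0 : 0 ≤ B := (abs_nonneg _).trans (hB 0)
  have h1 := (convex_Icc x y).norm_image_sub_le_of_norm_hasDerivWithin_le
    (f := fun t => Em h k x t) (f' := fun t => r t * sin (t - x)) (C := B * (y - x))
    (fun t _ => by
      have e := S.der_E (hasDerivAt_const t x) (hasDerivAt_id t)
      have e2 : HasDerivAt (fun t => Em h k x t) (r t * sin (t - x)) t := by
        refine e.congr_deriv ?_
        simp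
      exact e2.hasDerivWithinAt)
    (fun t ht => by
      rw [norm_mul, norm_eq_abs, norm_eq_abs]
      have e1 : |sin (t - x)| ≤ y - x := by
        refine (abs_sin_le_abs).trans ?_
        rw [abs_of_nonneg (by linarith [ht.1])]
        linarith [ht.2]
      exact mul_le_mul (hB t) e1 (abs_nonneg _) hB0)
    (left_mem_Icc.2 hxy) (right_mem_Icc.2 hxy)
  have h2 : Em h k x x = 0 := by
    unfold Em
    simp
  rw [h2, sub_zero, norm_eq_abs, norm_eq_abs, abs_of_nonneg (by linarith : (0 : ℝ) ≤ y - x)] at h1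
  linarith

/-- a bound for the numerators -/
theorem num_bound {p q D E c B e : ℝ} (hp : |p| ≤ B) (hq : |q| ≤ B) (hD : |D| ≤ e) (hE : |E| ≤ e)
    (hc : |c| ≤ 1) (he : e ≤ 4 * B) :
    |-(p ^ 2 * D * E) + 1 / 2 * (p * q * E ^ 2) + 1 / 2 * (c * q ^ 2 * E ^ 2)
      + 1 / 2 * (q * E ^ 3)| ≤ 4 * B ^ 2 * e ^ 2 := by
  have hB0 : 0 ≤ B := (abs_nonneg _).trans hp
  have he0 : 0 ≤ e := (abs_nonneg _).trans hD
  have h1 : |-(p ^ 2 * D * E)| ≤ B ^ 2 * e ^ 2 := by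
    rw [abs_neg, abs_mul, abs_mul, abs_pow]
    calc |p| ^ 2 * |D| * |E| ≤ B ^ 2 * e * e := by gcongr
      _ = _ := by ring
  have h2 : |1 / 2 * (p * q * E ^ 2)| ≤ 1 / 2 * (B ^ 2 * e ^ 2) := by
    rw [abs_mul, abs_of_pos (by norm_num : (0 : ℝ) < 1 / 2), abs_mul, abs_mul, abs_pow]
    calc 1 / 2 * (|p| * |q| * |E| ^ 2) ≤ 1 / 2 * (B * B * e ^ 2) := by gcongr
      _ = _ := by ring
  have h3 : |1 / 2 * (c * q ^ 2 * E ^ 2)| ≤ 1 / 2 * (B ^ 2 * e ^ 2) := by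
    rw [abs_mul, abs_of_pos (by norm_num : (0 : ℝ) < 1 / 2), abs_mul, abs_mul, abs_pow, abs_pow]
    calc 1 / 2 * (|c| * |q| ^ 2 * |E| ^ 2) ≤ 1 / 2 * (1 * B ^ 2 * e ^ 2) := by gcongr
      _ = _ := by ring
  have h4 : |1 / 2 * (q * E ^ 3)| ≤ 2 * (B ^ 2 * e ^ 2) := by
    rw [abs_mul, abs_of_pos (by norm_num : (0 : ℝ) < 1 / 2), abs_mul, abs_pow]
    calc 1 / 2 * (|q| * |E| ^ 3) ≤ 1 / 2 * (B * e ^ 3) := by gcongr
      _ = 1 / 2 * (B * e ^ 2 * e) := by ring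
      _ ≤ 1 / 2 * (B * e ^ 2 * (4 * B)) := by gcongr
      _ = _ := by ring
  have h5 := abs_add_le (-(p ^ 2 * D * E) + 1 / 2 * (p * q * E ^ 2)
    + 1 / 2 * (c * q ^ 2 * E ^ 2)) (1 / 2 * (q * E ^ 3))
  have h6 := abs_add_le (-(p ^ 2 * D * E) + 1 / 2 * (p * q * E ^ 2))
    (1 / 2 * (c * q ^ 2 * E ^ 2))
  have h7 := abs_add_le (-(p ^ 2 * D * E)) (1 / 2 * (p * q * E ^ 2))
  linarith

theorem quot_bound {N B u s : ℝ} (hu : 0 < u) (hs : 2 / π * u ≤ s)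
    (hN : |N| ≤ 4 * B ^ 2 * (B * u ^ 2) ^ 2) : |N / s ^ 3| ≤ 4 * B ^ 4 * π ^ 3 * u := by
  have hs0 : 0 < s := lt_of_lt_of_le (by positivity) hs
  rw [abs_div, abs_of_pos (by positivity : 0 < s ^ 3), div_le_iff₀ (by positivity)]
  have h2 : (2 / π * u) ^ 3 ≤ s ^ 3 := pow_le_pow_left₀ (by positivity) hs 3
  calc |N| ≤ 4 * B ^ 2 * (B * u ^ 2) ^ 2 := hN
    _ = 4 * B ^ 4 * u ^ 4 := by ring
    _ ≤ 4 * B ^ 4 * (8 * u ^ 4) := by
        gcongr
        nlinarith [pow_pos hu 4]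
    _ = 4 * B ^ 4 * π ^ 3 * u * (2 / π * u) ^ 3 := by
        field_simp
        ring
    _ ≤ _ := by gcongr

theorem flx_bound (F : Fam h k r Φ P Q R) {m M : ℝ} (hm : 0 < m) (hM : 0 < M)
    (hb : ∀ c ∈ Ioc (0 : ℝ) 1, ∀ x, m * c ≤ Φ c x - x ∧ Φ c x - x ≤ M * c ∧ |P c x - 1| ≤ M * c) :
    ∃ K, ∀ c ∈ Ioc (0 : ℝ) 1, M * c ≤ 1 → ∀ x, |flx h k Φ P c x| ≤ K * c := by
  obtain ⟨B1, hB1, b1⟩ := per_bound F.sup.ch F.sup.ph
  obtain ⟨B2, hB2, b2⟩ := per_bound F.sup.cr F.sup.pr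
  set B := max B1 B2 with hB
  have hB0 : 0 < B := lt_of_lt_of_le hB1 (le_max_left _ _)
  have b1' : ∀ x, |h x| ≤ B := fun x => (b1 x).trans (le_max_left _ _)
  have b2' : ∀ x, |r x| ≤ B := fun x => (b2 x).trans (le_max_right _ _)
  refine ⟨4 * B ^ 4 * π ^ 3 * M * (2 + M), fun c hc hc1 x => ?_⟩
  obtain ⟨g1, g2, g3⟩ := hb c hc x
  obtain ⟨y, hy⟩ : ∃ y, y = Φ c x := ⟨_, rfl⟩
  rw [← hy] at g1 g2
  have hc0 := hc.1
  have hu0 : 0 < y - x := lt_of_lt_of_le (by positivity) g1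
  have hu1 : y - x ≤ 1 := g2.trans hc1
  have hsin : 2 / π * (y - x) ≤ sin (y - x) :=
    mul_le_sin hu0.le (by linarith [Real.pi_gt_three])
  have hD := F.sup.D_bound b2' (by linarith : x ≤ y)
  have hE := F.sup.E_bound b2' (by linarith : x ≤ y)
  have he : B * (y - x) ^ 2 ≤ 4 * B := by
    have : (y - x) ^ 2 ≤ 1 := by nlinarith
    nlinarith
  have n1 : |N1 h k x y| ≤ 4 * B ^ 2 * (B * (y - x) ^ 2) ^ 2 :=
    num_bound (b1' x) (b1' y) hD hE (abs_cos_le_one _) he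
  have n2 : |N2 h k x y| ≤ 4 * B ^ 2 * (B * (y - x) ^ 2) ^ 2 := by
    have e : N2 h k x y = -(-(h y ^ 2 * Em h k x y * Dm h k x y)
        + 1 / 2 * (h y * h x * Dm h k x y ^ 2)
        + 1 / 2 * (cos (y - x) * h x ^ 2 * Dm h k x y ^ 2) + 1 / 2 * (h x * Dm h k x y ^ 3)) := by
      unfold N2
      ring
    rw [e, abs_neg]
    exact num_bound (b1' y) (b1' x) hE hD (abs_cos_le_one _) he
  have a1 : |A1 h k x y| ≤ 4 * B ^ 4 * π ^ 3 * (M * c) :=
    (quot_bound hu0 hsin n1).trans (by gcongr)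
  have a2 : |A2 h k x y| ≤ 4 * B ^ 4 * π ^ 3 * (M * c) :=
    (quot_bound hu0 hsin n2).trans (by gcongr)
  have h7 : |P c x| ≤ 1 + M := by
    have h8 : |P c x| ≤ |P c x - 1| + |(1 : ℝ)| := by
      have := abs_add_le (P c x - 1) 1
      simpa using this
    rw [abs_one] at h8
    have : M * c ≤ M := mul_le_of_le_one_right hM.le hc.2
    linarith
  unfold flx
  rw [← hy]
  calc |A2 h k x y - A1 h k x y * P c x| ≤ |A2 h k x y| + |A1 h k x y * P c x| := abs_sub _ _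
    _ = |A2 h k x y| + |A1 h k x y| * |P c x| := by rw [abs_mul]
    _ ≤ 4 * B ^ 4 * π ^ 3 * (M * c) + 4 * B ^ 4 * π ^ 3 * (M * c) * (1 + M) := by gcongr
    _ = _ := by ring

theorem limJ (F : Fam h k r Φ P Q R) {m M : ℝ} (hm : 0 < m) (hM : 0 < M)
    (hb : ∀ c ∈ Ioc (0 : ℝ) 1, ∀ x, m * c ≤ Φ c x - x ∧ Φ c x - x ≤ M * c ∧ |P c x - 1| ≤ M * c) :
    Tendsto (J h k Φ P) (𝓝[>] 0) (𝓝 0) := by
  obtain ⟨K, hK⟩ := flx_bound F hm hM hb
  have h1 : ∀ᶠ c in 𝓝[>] (0 : ℝ), |J h k Φ P c| ≤ K * c * (2 * π) := by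
    have hpos : 0 < min 1 (1 / M) := lt_min one_pos (by positivity)
    filter_upwards [Ioo_mem_nhdsGT hpos] with c hc
    have hc1 : c ∈ Ioc (0 : ℝ) 1 := ⟨hc.1, (hc.2.trans_le (min_le_left _ _)).le⟩
    have hc2 : M * c ≤ 1 := by
      have := (hc.2.trans_le (min_le_right _ _)).le
      rw [le_div_iff₀ hM] at this
      linarith
    have h2 := intervalIntegral.norm_integral_le_of_norm_le_const (a := 0) (b := 2 * π)
      (f := flx h k Φ P c) (C := K * c) (fun x _ => hK c hc1 hc2 x)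
    rw [sub_zero, abs_of_pos two_pi_pos] at h2
    exact h2
  have h2 : Tendsto (fun c : ℝ => K * c * (2 * π)) (𝓝[>] 0) (𝓝 0) := by
    have : Continuous (fun c : ℝ => K * c * (2 * π)) := by fun_prop
    have h3 := this.tendsto 0
    simp only [mul_zero, zero_mul] at h3
    exact h3.mono_left nhdsWithin_le_nhds
  exact squeeze_zero_norm' h1 h2

/-- The main analytic conclusion. -/
theorem rigid (F : Fam h k r Φ P Q R) {m M : ℝ} (hm : 0 < m) (hM : 0 < M)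
    (hb : ∀ c ∈ Ioc (0 : ℝ) 1, ∀ x, m * c ≤ Φ c x - x ∧ Φ c x - x ≤ M * c ∧ |P c x - 1| ≤ M * c)
    (hJ1 : J h k Φ P 1 ≤ 0) {c : ℝ} (hc : c ∈ Ioo (0 : ℝ) 1) (x : ℝ) :
    Mm h k x (Φ c x) = 0 ∧
      h x * Em h k x (Φ c x) * P c x = h (Φ c x) * Dm h k x (Φ c x) := by
  have hmem : ∀ {c : ℝ}, c ∈ Ioo (0 : ℝ) 1 → c ∈ Ioc (0 : ℝ) 1 := fun h => ⟨h.1, h.2.le⟩
  have h1m : (1 : ℝ) ∈ Ioc (0 : ℝ) 1 := ⟨one_pos, le_rfl⟩
  have hlim := limJ F hm hM hb
  have hJ0 : ∀ c ∈ Ioo (0 : ℝ) 1, J h k Φ P c = 0 := by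
    intro c hc
    apply le_antisymm
    · exact (F.monoJ (hmem hc) h1m hc.2.le).trans hJ1
    · refine le_of_tendsto hlim ?_
      filter_upwards [Ioo_mem_nhdsGT hc.1] with t ht
      exact F.monoJ ⟨ht.1, (ht.2.trans hc.2).le⟩ (hmem hc) ht.2.le
  have hint : ∫ x in (0 : ℝ)..2 * π, pst h k Φ P Q c x = 0 := by
    have h1 : J h k Φ P =ᶠ[𝓝 c] fun _ => 0 := by
      filter_upwards [Ioo_mem_nhds hc.1 hc.2] with t ht using hJ0 t ht
    exact ((F.dJ hc).congr_of_eventuallyEq h1.symm).unique (hasDerivAt_const c 0)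
  have hz : ∀ x ∈ Icc (0 : ℝ) (2 * π), pst h k Φ P Q c x = 0 := by
    intro y hy
    by_contra hne
    have h2 : 0 < pst h k Φ P Q c y := lt_of_le_of_ne (F.pst_nonneg (hmem hc) y) (Ne.symm hne)
    have h4 := intervalIntegral.integral_pos (a := 0) (b := 2 * π) two_pi_pos
      (slice F.c_pst (hmem hc)).continuousOn (fun t _ => F.pst_nonneg (hmem hc) t) ⟨y, hy, h2⟩
    exact absurd hint h4.ne'
  have L := F.leaf c (hmem hc)
  have hzero : pst h k Φ P Q c x = 0 := by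
    have hp : Function.Periodic (fun x => pst h k Φ P Q c x) (2 * π) :=
      fun x => F.per_pst (hmem hc) x
    obtain ⟨y, hy, hxy⟩ := hp.exists_mem_Ico₀ two_pi_pos x
    have e : pst h k Φ P Q c x = pst h k Φ P Q c y := hxy
    rw [e]
    exact hz y ⟨hy.1, hy.2.le⟩
  have p1 := L.pos x
  have p2 := L.sin_pos x
  have p3 := F.Qpos c (hmem hc) x
  unfold pst at hzero
  have h4 := (mul_eq_zero.1 hzero).resolve_left p3.ne'
  have h5 : 0 ≤ (h x * Em h k x (Φ c x) * P c x - h (Φ c x) * Dm h k x (Φ c x)) ^ 2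
      / (P c x * sin (Φ c x - x) ^ 4) := by positivity
  have h6 : 0 ≤ 2 * Mm h k x (Φ c x) ^ 2 / sin (Φ c x - x) ^ 4 := by positivity
  have h7 : 2 * Mm h k x (Φ c x) ^ 2 / sin (Φ c x - x) ^ 4 = 0 := by linarith
  have h8 : (h x * Em h k x (Φ c x) * P c x - h (Φ c x) * Dm h k x (Φ c x)) ^ 2
      / (P c x * sin (Φ c x - x) ^ 4) = 0 := by linarith
  rw [div_eq_zero_iff] at h7 h8
  have h9 := h7.resolve_right (by positivity)
  have h10 := h8.resolve_right (by positivity)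
  constructor
  · have h11 := (mul_eq_zero.1 h9).resolve_left two_ne_zero
    exact pow_eq_zero_iff two_ne_zero |>.1 h11
  · exact sub_eq_zero.1 (pow_eq_zero_iff two_ne_zero |>.1 h10)

end Pool.Agent.J4H53.OB
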