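import Pool.Agent.J4H53.OB.Limit

/-!
# The flux through a leaf of parallelograms vanishes
-/

namespace Pool.Agent.J4H53.OB

open Real Set MeasureTheory Filter Topology

variable {h k r : ℝ → ℝ} {Φ P Q R : ℝ → ℝ → ℝ} {φ φ' : ℝ → ℝ}

theorem Sup.k_pi (S : Sup h k r) (hs : ∀ x, h (x + π) = h x) (x : ℝ) : k (x + π) = k x := by
  have h1 : HasDerivAt (fun x => h (x + π)) (k (x + π)) x := (S.dh (x + π)).comp_add_const x π
  have h2 : (fun x => h (x + π)) = h := funext hs
  rw [h2] at h1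
  exact h1.unique (S.dh x)

theorem quad_rel (S : Sup h k r) (L : Leaf h k r φ φ') (hs : ∀ x, h (x + π) = h x)
    (hq : ∀ x, φ (φ x) = x + π) (x : ℝ) :
    h (φ x) * cos (φ x - x) = k (φ x) * sin (φ x - x) ∧
      h x * cos (φ x - x) = -(k x * sin (φ x - x)) := by
  have hk := S.k_pi hs
  have e1 := L.el x
  have e2 := L.el (φ x)
  have s0 := (L.sin_pos x).ne'
  have hpi : φ (x + π) = φ x + π := by
    rw [← hq x, hq (φ x)]
  rw [hq] at e1 e2
  rw [hpi] at e2
  have c1 : cos (x + π - φ x) = -cos (φ x - x) := by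
    rw [show x + π - φ x = π - (φ x - x) by ring, cos_pi_sub]
  have c2 : sin (x + π - φ x) = sin (φ x - x) := by
    rw [show x + π - φ x = π - (φ x - x) by ring, sin_pi_sub]
  have c3 : φ x + π - (x + π) = φ x - x := by ring
  unfold sp sm Dm Em at e1 e2
  rw [c3] at e2
  rw [c1, c2, hs] at e1
  rw [c1, c2, hs, hs, hk] at e2
  have e1' := (div_left_inj' s0).1 e1
  have e2' := (div_left_inj' s0).1 e2
  constructor <;> linarith

theorem quad_flx (S : Sup h k r) (L : Leaf h k r φ φ') (hs : ∀ x, h (x + π) = h x)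
    (hq : ∀ x, φ (φ x) = x + π) (x : ℝ) :
    (A2 h k (φ x) (φ (φ x)) - A1 h k (φ x) (φ (φ x)) * φ' (φ x)) * φ' x
      = -(A2 h k x (φ x) - A1 h k x (φ x) * φ' x) := by
  have hk := S.k_pi hs
  obtain ⟨r1, r2⟩ := quad_rel S L hs hq x
  have hP : φ' (φ x) * φ' x = 1 := by
    have e1 : HasDerivAt (fun x => φ (φ x)) (φ' (φ x) * φ' x) x := (L.der (φ x)).comp x (L.der x)
    have e2 : (fun x => φ (φ x)) = fun x => x + π := funext hq
    rw [e2] at e1
    exact e1.unique ((hasDerivAt_id x).add_const π)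
  have c1 : cos (x + π - φ x) = -cos (φ x - x) := by
    rw [show x + π - φ x = π - (φ x - x) by ring, cos_pi_sub]
  have c2 : sin (x + π - φ x) = sin (φ x - x) := by
    rw [show x + π - φ x = π - (φ x - x) by ring, sin_pi_sub]
  have d1 : Dm h k x (φ x) = h (φ x) := by
    unfold Dm
    linarith
  have d2 : Em h k x (φ x) = h x := by
    unfold Em
    linarith
  have d3 : Dm h k (φ x) (x + π) = h x := by
    unfold Dm
    rw [c1, c2, hs]
    linarith
  have d4 : Em h k (φ x) (x + π) = h (φ x) := by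
    unfold Em
    rw [c1, c2, hs, hk]
    linarith
  have s0 := (L.sin_pos x).ne'
  rw [hq]
  unfold A1 A2 N1 N2
  rw [d1, d2, d3, d4, c1, c2, hs]
  field_simp
  linear_combination (h (φ x) ^ 2 * h x ^ 2 * cos (φ x - x)) * hP

theorem Fam.J_one (F : Fam h k r Φ P Q R) (hs : ∀ x, h (x + π) = h x)
    (hq : ∀ x, Φ 1 (Φ 1 x) = x + π) : J h k Φ P 1 = 0 := by
  have h1m : (1 : ℝ) ∈ Ioc (0 : ℝ) 1 := ⟨one_pos, le_rfl⟩
  have L := F.leaf 1 h1m
  have e1 := integral_comp_leaf L (F := flx h k Φ P 1) (slice F.c_flx h1m) (F.per_flx h1m)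
  have e2 : ∀ x, flx h k Φ P 1 (Φ 1 x) * P 1 x = -flx h k Φ P 1 x := fun x =>
    quad_flx F.sup L hs hq x
  simp only [e2, intervalIntegral.integral_neg] at e1
  unfold J
  linarith

end Pool.Agent.J4H53.OB
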