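import Pool.Agent.J4H53.OB.Curve

/-!
# Central symmetry
-/

namespace Pool.Agent.J4H53.OB

open Real Set MeasureTheory Filter Topology

variable {Φ : ℝ → ℝ → ℝ} {γ : ℝ → ℂ} {ρ : ℝ → ℝ} {h k r : ℝ → ℝ} {φ φ' : ℝ → ℝ}

theorem pt_eq (o : ℂ) {x y : ℝ} (hs : sin (y - x) ≠ 0) :
    pt γ x (sp (hh γ o) (kk γ o) x y) = pt γ y (-sm (hh γ o) (kk γ o) x y) := by
  have h1 : OnTangent γ y (pt γ x (sp (hh γ o) (kk γ o) x y)) := by
    rw [onTangent_pt o]
    unfold sp
    field_simp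
  obtain ⟨τ, hτ⟩ := exists_pt y h1
  have h2 : OnTangent γ x (pt γ y τ) := by
    rw [← hτ, onTangent_pt o]
    unfold Dm
    simp
  rw [onTangent_pt o, Em_eq, show x - y = -(y - x) by ring, sin_neg] at h2
  rw [hτ]
  congr 1
  unfold sm
  field_simp
  linarith

theorem pt_add (x τ : ℝ) : pt γ x (-τ) + pt γ x τ = 2 * γ x := by
  unfold pt
  push_cast
  ring

theorem V_add (o : ℂ) (L : Leaf (hh γ o) (kk γ o) ρ φ φ') (x : ℝ) :
    pt γ x (sp (hh γ o) (kk γ o) x (φ x))
      + pt γ (φ x) (sp (hh γ o) (kk γ o) (φ x) (φ (φ x))) = 2 * γ (φ x) := by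
  rw [pt_eq o (L.sin_pos x).ne', L.el, pt_add]

/-- In the first case the sum of opposite points is invariant. -/
theorem mid_inv (o : ℂ) (S : Sup (hh γ o) (kk γ o) ρ) (hper : ∀ θ, γ (θ + 2 * π) = γ θ)
    (L : Leaf (hh γ o) (kk γ o) ρ φ φ') (hq : ∀ x, φ (φ x) = x + π) (x : ℝ) :
    γ (φ x) + γ (φ x + π) = γ x + γ (x + π) := by
  have hpi : ∀ x, φ (x + π) = φ x + π := fun x => by rw [← hq x, hq (φ x)]
  have e0 := V_add o L x
  have e1 := V_add o L (φ x)
  have e2 := V_add o L (φ (φ x))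
  have e3 := V_add o L (φ (φ (φ x)))
  simp only [hq, hpi] at e0 e1 e2 e3
  have hp : x + π + π = x + 2 * π := by ring
  have hp2 : φ x + π + π = φ x + 2 * π := by ring
  have e4 : pt γ (x + 2 * π) (sp (hh γ o) (kk γ o) (x + 2 * π) (φ x + 2 * π))
      = pt γ x (sp (hh γ o) (kk γ o) x (φ x)) := by
    unfold pt sp
    rw [hper, per_Dm S, show φ x + 2 * π - (x + 2 * π) = φ x - x by ring]
    congr 3
    push_cast
    rw [add_mul, Complex.exp_add, Complex.exp_two_pi_mul_I, mul_one]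
  rw [hp, hp2, e4, hper] at e3
  rw [hp] at e2
  linear_combination (1 / 2) * (-e0 + e1 - e2 + e3)

theorem exp_add_pi (x : ℝ) : Complex.exp ((x + π : ℝ) * Complex.I)
    = -Complex.exp (x * Complex.I) := by
  push_cast
  rw [add_mul, Complex.exp_add, Complex.exp_pi_mul_I]
  ring

/-- In the first case the curve is centrally symmetric. -/
theorem exists_center (o : ℂ) (hper : ∀ θ, γ (θ + 2 * π) = γ θ) (hc : Continuous ρ)
    (hρ : ∀ θ : ℝ, 0 < ρ θ ∧
      HasDerivAt γ (ρ θ * (Complex.I * Complex.exp (θ * Complex.I))) θ)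
    (L : Leaf (hh γ o) (kk γ o) ρ φ φ') (hq : ∀ x, φ (φ x) = x + π) :
    ∃ o' : ℂ, ∀ θ, γ (θ + π) = 2 * o' - γ θ := by
  have S := sup_of o hper hc hρ
  have hd : ∀ x : ℝ, HasDerivAt (fun x => γ x + γ (x + π))
      (((ρ x - ρ (x + π) : ℝ) : ℂ) * (Complex.I * Complex.exp (x * Complex.I))) x := by
    intro x
    have e1 : HasDerivAt (fun x => γ (x + π))
        (ρ (x + π) * (Complex.I * Complex.exp ((x + π : ℝ) * Complex.I))) x :=
      (hρ (x + π)).2.comp_add_const x π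
    refine ((hρ x).2.add e1).congr_deriv ?_
    rw [exp_add_pi]
    push_cast
    ring
  have hzero : ∀ x, ρ x - ρ (x + π) = 0 := by
    intro x
    have e1 : HasDerivAt (fun x => γ (φ x) + γ (φ x + π))
        (φ' x • (((ρ (φ x) - ρ (φ x + π) : ℝ) : ℂ)
          * (Complex.I * Complex.exp (φ x * Complex.I)))) x :=
      (hd (φ x)).scomp x (L.der x)
    have e2 : (fun x => γ (φ x) + γ (φ x + π)) = fun x => γ x + γ (x + π) :=
      funext (mid_inv o S hper L hq)
    rw [e2] at e1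
    have e3 := e1.unique (hd x)
    rw [Complex.real_smul] at e3
    have e4 := congrArg Complex.re e3
    have e5 := congrArg Complex.im e3
    rw [Complex.re_ofReal_mul, tan_re, tan_re] at e4
    rw [Complex.im_ofReal_mul, tan_im, tan_im] at e5
    have e6 : φ' x * (ρ (φ x) - ρ (φ x + π)) * sin (φ x - x) = 0 := by
      rw [sin_sub]
      linear_combination -cos x * e4 - sin x * e5
    have e7 : φ' x * (ρ (φ x) - ρ (φ x + π)) = 0 :=
      (mul_eq_zero.1 e6).resolve_right (L.sin_pos x).ne'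
    have := sin_sq_add_cos_sq x
    linear_combination (sin (φ x) * sin x + cos (φ x) * cos x) * e7 + sin x * e4 - cos x * e5
      - (ρ x - ρ (x + π)) * this
  have hconst : ∀ x, γ x + γ (x + π) = γ 0 + γ (0 + π) := by
    intro x
    have e : ∀ x : ℝ, HasDerivAt (fun x => γ x + γ (x + π)) 0 x := by
      intro x
      refine (hd x).congr_deriv ?_
      rw [hzero]
      simp
    exact is_const_of_deriv_eq_zero (fun x => (e x).differentiableAt) (fun x => (e x).deriv) x 0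
  refine ⟨(γ 0 + γ (0 + π)) / 2, fun θ => ?_⟩
  rw [← hconst θ]
  ring

theorem hh_pi (o : ℂ) (ho : ∀ θ, γ (θ + π) = 2 * o - γ θ) (x : ℝ) :
    hh γ o (x + π) = hh γ o x := by
  unfold hh
  rw [ho, cos_add_pi, sin_add_pi]
  simp only [Complex.sub_re, Complex.sub_im, Complex.mul_re, Complex.mul_im, Complex.re_ofNat,
    Complex.im_ofNat]
  ring

/-- positivity of the support function with respect to the centre of symmetry -/
theorem Sup.pos_of_sym (S : Sup h k r) (hs : ∀ x, h (x + π) = h x) (x : ℝ) : 0 < h x := by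
  have hm : StrictMonoOn (Em h k x) (Icc x (x + π)) := by
    refine strictMonoOn_of_deriv_pos (convex_Icc _ _) ?_ ?_
    · intro t _
      exact (S.der_E (hasDerivAt_const t x) (hasDerivAt_id t)).continuousAt.continuousWithinAt
    · rw [interior_Icc]
      intro t ht
      have e := S.der_E (hasDerivAt_const t x) (hasDerivAt_id t)
      have e2 : HasDerivAt (Em h k x) (r t * sin (t - x)) t := by
        refine e.congr_deriv ?_
        simp
      rw [e2.deriv]
      exact mul_pos (S.pos t) (sin_pos_of ht.1 ht.2)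
  have hpi := pi_pos
  have h3 := hm ⟨le_rfl, by linarith⟩ ⟨by linarith, le_rfl⟩ (by linarith : x < x + π)
  have h4 : Em h k x x = 0 := by
    unfold Em
    simp
  have h5 : Em h k x (x + π) = 2 * h x := by
    unfold Em
    rw [hs, show x + π - x = π by ring, cos_pi, sin_pi]
    ring
  linarith

/-! ### the second case -/

theorem sp_pi (S : Sup h k r) (hs : ∀ x, h (x + π) = h x) (x y : ℝ) :
    sp h k (x + π) (y + π) = sp h k x y := by
  unfold sp Dm
  rw [hs, hs, S.k_pi hs, show y + π - (x + π) = y - x by ring]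

theorem sm_pi (S : Sup h k r) (hs : ∀ x, h (x + π) = h x) (x y : ℝ) :
    sm h k (x + π) (y + π) = sm h k x y := by
  unfold sm Em
  rw [hs, hs, S.k_pi hs, show y + π - (x + π) = y - x by ring]

theorem sp_inj (S : Sup h k r) {x y z : ℝ} (hy : x < y) (hy' : y < x + π) (hz : x < z)
    (hz' : z < x + π) (e : sp h k x y = sp h k x z) : y = z := by
  have hm : StrictMonoOn (sp h k x) (Ioo x (x + π)) := by
    have hd : ∀ t ∈ Ioo x (x + π), HasDerivAt (sp h k x) (Em h k x t / sin (t - x) ^ 2) t := by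
      intro t ht
      refine (S.der_sp (hasDerivAt_const t x) (hasDerivAt_id t)
        (sin_pos_of ht.1 ht.2).ne').congr_deriv ?_
      simp
    refine strictMonoOn_of_deriv_pos (convex_Ioo _ _) ?_ ?_
    · intro t ht
      exact (hd t ht).continuousAt.continuousWithinAt
    · rw [interior_Ioo]
      intro t ht
      rw [(hd t ht).deriv]
      exact div_pos (S.E_pos ht.1 ht.2) (pow_pos (sin_pos_of ht.1 ht.2) 2)
  exact hm.injOn ⟨hy, hy'⟩ ⟨hz, hz'⟩ e

theorem second_case (F : OuterFoliation γ Φ) (o : ℂ) (S : Sup (hh γ o) (kk γ o) ρ)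
    (ho : ∀ θ, γ (θ + π) = 2 * o - γ θ)
    (h4 : ∀ θ, Φ 1 (Φ 1 (Φ 1 (Φ 1 θ))) = θ + 2 * π) (x : ℝ) : Φ 1 (Φ 1 x) = x + π := by
  have hs := hh_pi o ho
  have h1m : (1 : ℝ) ∈ Ioc (0 : ℝ) 1 := ⟨one_pos, le_rfl⟩
  have h1m' : (1 : ℝ) ∈ Icc (0 : ℝ) 1 := ⟨zero_le_one, le_rfl⟩
  obtain ⟨ψ, hψ⟩ : ∃ ψ : ℝ → ℝ, ∀ x, Φ 1 (x + π) = ψ x + π := ⟨fun x => Φ 1 (x + π) - π,
    fun x => by ring⟩
  have L := mkLeaf F o S h1m
  have ψlo : ∀ x, x < ψ x := fun x => by
    have := L.lo (x + π)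
    rw [hψ] at this
    linarith
  have ψhi : ∀ x, ψ x < x + π := fun x => by
    have := L.hi (x + π)
    rw [hψ] at this
    linarith
  have ψel : ∀ x, sp (hh γ o) (kk γ o) (ψ x) (ψ (ψ x)) = sm (hh γ o) (kk γ o) x (ψ x) := by
    intro x
    have := L.el (x + π)
    rw [hψ, hψ, sp_pi S hs, sm_pi S hs] at this
    exact this
  have hle : ∀ x, Φ 1 x ≤ ψ x := by
    intro x
    by_contra hlt
    push Not at hlt
    have hcont : ContinuousOn (fun c => Φ c x) (Icc 0 1) :=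
      fun c _ => (d_c F.smooth c x).continuousAt.continuousWithinAt
    have hmem : ψ x ∈ Ioo (Φ 0 x) (Φ 1 x) := by
      rw [F.zero]
      exact ⟨ψlo x, hlt⟩
    obtain ⟨c, hc, hcu⟩ := intermediate_value_Ioo zero_le_one hcont hmem
    have hc1 : c ∈ Ioc (0 : ℝ) 1 := ⟨hc.1, hc.2.le⟩
    have hc2 : c ∈ Icc (0 : ℝ) 1 := ⟨hc.1.le, hc.2.le⟩
    have hc3 : c ∈ Ico (0 : ℝ) 1 := ⟨hc.1.le, hc.2⟩
    have Lc := mkLeaf F o S hc1
    have step : ∀ y, Φ c y = ψ y → Φ c (ψ y) = ψ (ψ y) := by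
      intro y hy
      have e1 := Lc.el y
      have e2 := ψel y
      rw [hy, ← e2] at e1
      exact sp_inj S (Lc.lo _) (Lc.hi _) (ψlo _) (ψhi _) e1
    have s0 : Φ c x = ψ x := hcu
    have s1 := step x s0
    have s2 := step (ψ x) s1
    have s3 := step (ψ (ψ x)) s2
    have e4 : ψ (ψ (ψ (ψ x))) = x + 2 * π := by
      have := h4 (x + π)
      rw [hψ, hψ, hψ, hψ] at this
      linarith
    have m1 := mono_x F h1m'
    have f1 : Φ c x < Φ 1 x := lt_one F hc3 x
    have f2 : Φ c (Φ c x) < Φ 1 (Φ 1 x) := (lt_one F hc3 _).trans (m1 f1)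
    have f3 : Φ c (Φ c (Φ c x)) < Φ 1 (Φ 1 (Φ 1 x)) := (lt_one F hc3 _).trans (m1 f2)
    have f4 : Φ c (Φ c (Φ c (Φ c x))) < Φ 1 (Φ 1 (Φ 1 (Φ 1 x))) :=
      (lt_one F hc3 _).trans (m1 f3)
    rw [s0, s1, s2, s3, e4, h4] at f4
    exact lt_irrefl _ f4
  have hpi : ∀ x, Φ 1 (x + π) = Φ 1 x + π := by
    intro x
    apply le_antisymm
    · have e1 := hle (x + π)
      have e2 := hψ (x + π)
      rw [show x + π + π = x + 2 * π by ring, F.per 1 h1m'] at e2
      linarith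
    · rw [hψ]
      have := hle x
      linarith
  have m1 := mono_x F h1m'
  have m2 : StrictMono (fun x => Φ 1 (Φ 1 x)) := m1.comp m1
  have g1 : ∀ x, Φ 1 (Φ 1 (x + π)) = Φ 1 (Φ 1 x) + π := fun x => by rw [hpi, hpi]
  rcases lt_trichotomy (Φ 1 (Φ 1 x)) (x + π) with h | h | h
  · have e1 := m2 h
    simp only [g1, h4] at e1
    linarith
  · exact h
  · have e1 := m2 h
    simp only [g1, h4] at e1
    linarith

end Pool.Agent.J4H53.OB
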